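import Pool.Agent.H69.LL.Fn

/-!
# Module Dns: a closed subspace of `C₀` which contains the differences of all indicators is everything

Copy of `Pool/Agent/H70/CombDense.lean` (helper70): `eY`, `dense_span_eY`, `SeparableSpace`, `fT`, `D_fT`, `gT`, `gT_support`,
`norm_D_gT_sub`, `P_of_support`, `eY_mem_P`, `dense_P`, for a general tree. The subtree of `u`:
`inT u v := T.dep u ≤ T.dep v ∧ T.par^[T.dep v - T.dep u] v = u`; for `v ≠ o`, `v ≠ u`: `inT u v ↔ inT u (par v)`; `¬ inT u (par u)`
for `u ≠ o`. `gT u N v = if inT u v then max 0 (1 - (dep v - dep u)/N) else 0` is supported in `{dep ≤ dep u + N}`, which is finite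
(`T.finite_dep_le`), so `D (gT u N)` is a finite combination of the `D (chi v)`; `‖D (gT u N) v - [v = u]‖ ≤ 1/N`. Hence the unit
vector `eY u` is in `Q` (closed), and the span of the unit vectors is dense. `V` is countable (union of the finite sets
`{dep ≤ M}`), so `C₀` is separable.
-/

set_option autoImplicit false

namespace Pool.Agent.H69.LL

open Pool.Agent.H70.LittleLip Filter Topology TopologicalSpace
open scoped ZeroAtInfty

/-- the indicator of a vertex -/
def chi {V : Type} [DecidableEq V] (v : V) : V → ℂ := Pi.single v 1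

lemma chi_fs {V : Type} [DecidableEq V] (v : V) : FS (chi v) :=
  (Set.finite_singleton v).subset fun w hw => by
    by_contra h
    exact hw (Pi.single_eq_of_ne (by simpa using h) _)

namespace PTree

variable {V : Type} [DecidableEq V] [TopologicalSpace V] [DiscreteTopology V] (T : PTree V)

/-- the differences of a function with finite support, as an element of `C₀` -/
def yf (f : V → ℂ) (h : FS f) : C₀(V, ℂ) := mkY (T.D f) (T.D_tendsto_of_fs h)

lemma yf_apply (f : V → ℂ) (h : FS f) (v : V) : T.yf f h v = T.D f v := rfl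

private lemma yf_mem (Q : Submodule ℂ C₀(V, ℂ)) (h : ∀ v, T.yf (chi v) (chi_fs v) ∈ Q)
    (g : V → ℂ) (hg : FS g) : T.yf g hg ∈ Q := by
  have heq : T.yf g hg = ∑ v ∈ hg.toFinset, g v • T.yf (chi v) (chi_fs v) := by
    ext w
    have h1 : ∀ s : Finset V, ((∑ v ∈ s, g v • T.yf (chi v) (chi_fs v) : C₀(V, ℂ)) : V → ℂ) w =
        ∑ v ∈ s, g v * T.D (chi v) w := by
      intro s
      induction s using Finset.induction_on with
      | empty => simp
      | insert a s ha ih =>
        rw [Finset.sum_insert ha, Finset.sum_insert ha, ZeroAtInftyContinuousMap.add_apply, ih]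
        rfl
    rw [h1, yf_apply]
    have h2 : ∀ x : V, g x = ∑ v ∈ hg.toFinset, g v * chi v x := by
      intro x
      simp only [chi, Pi.single_apply, mul_ite, mul_one, mul_zero, Finset.sum_ite_eq]
      split_ifs with hx
      · rfl
      · by_contra hne
        exact hx ((Set.Finite.mem_toFinset hg).2 hne)
    unfold D
    by_cases hw : w = T.o
    · simp only [hw, if_true]; exact h2 _
    · simp only [hw, if_false]
      rw [h2 w, h2 (T.par w), ← Finset.sum_sub_distrib]
      refine Finset.sum_congr rfl fun v _ => ?_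
      ring
  rw [heq]
  exact Submodule.sum_mem _ fun v _ => Submodule.smul_mem _ _ (h v)

/-- the unit vectors -/
private noncomputable def eY (u : V) : C₀(V, ℂ) :=
  mkY (Pi.single u 1) (by
    rw [tendsto_cofinite_iff]
    intro ε hε
    refine (Set.finite_singleton u).subset ?_
    intro v hv
    by_contra hne
    have hv' : ε ≤ ‖(Pi.single u (1 : ℂ) : V → ℂ) v‖ := hv
    rw [Pi.single_eq_of_ne (by simpa using hne)] at hv'
    simp at hv'
    linarith)

private lemma dense_span_eY : Dense (Submodule.span ℂ (Set.range (eY (V := V))) : Set C₀(V, ℂ)) := by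
  classical
  rw [Metric.dense_iff]
  intro F ε hε
  have hK := (tendsto_cofinite_iff F).1 (Y_tendsto F) (ε / 2) (by positivity)
  refine ⟨∑ u ∈ hK.toFinset, F u • eY u, ?_, ?_⟩
  · rw [Metric.mem_ball, dist_comm, dist_eq_norm]
    refine lt_of_le_of_lt (norm_le_of _ (M := ε / 2) (by positivity) fun v => ?_) (by linarith)
    have hsum : (∑ u ∈ hK.toFinset, F u • eY u : C₀(V, ℂ)) v =
        if v ∈ hK.toFinset then F v else 0 := by
      have : ((∑ u ∈ hK.toFinset, F u • eY u : C₀(V, ℂ)) : V → ℂ) v =
          ∑ u ∈ hK.toFinset, F u * (Pi.single u (1 : ℂ) : V → ℂ) v := by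
        induction hK.toFinset using Finset.induction_on with
        | empty => simp
        | insert a s ha ih =>
          rw [Finset.sum_insert ha, Finset.sum_insert ha, ZeroAtInftyContinuousMap.add_apply, ih]
          rfl
      rw [this]
      simp only [Pi.single_apply, mul_ite, mul_one, mul_zero, Finset.sum_ite_eq]
    rw [ZeroAtInftyContinuousMap.sub_apply, hsum]
    by_cases hv : v ∈ hK.toFinset
    · rw [if_pos hv]; simp; positivity
    · rw [if_neg hv, sub_zero]
      simp only [Set.Finite.mem_toFinset, Set.mem_ofPred_eq, not_le] at hv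
      exact hv.le
  · exact Submodule.sum_mem _ fun u _ => Submodule.smul_mem _ _ (Submodule.subset_span ⟨u, rfl⟩)

/-- membership of `v` in the subtree of `u` -/
private def inT (u v : V) : Prop := T.dep u ≤ T.dep v ∧ T.par^[T.dep v - T.dep u] v = u

private lemma inT_self (u : V) : T.inT u u := by
  unfold inT
  simp

private lemma inT_par {u v : V} (hv : v ≠ T.o) (huv : v ≠ u) : T.inT u v ↔ T.inT u (T.par v) := by
  have hd := T.dep_par v hv
  unfold inT
  constructor
  · rintro ⟨h1, h2⟩
    have h3 : T.dep u ≠ T.dep v := by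
      intro h
      rw [h, Nat.sub_self] at h2
      exact huv h2
    refine ⟨by omega, ?_⟩
    have e : T.dep v - T.dep u = (T.dep (T.par v) - T.dep u) + 1 := by omega
    rw [e, Function.iterate_succ_apply] at h2
    exact h2
  · rintro ⟨h1, h2⟩
    refine ⟨by omega, ?_⟩
    have e : T.dep v - T.dep u = (T.dep (T.par v) - T.dep u) + 1 := by omega
    rw [e, Function.iterate_succ_apply]
    exact h2

private lemma not_inT_par {u : V} (hu : u ≠ T.o) : ¬ T.inT u (T.par u) := by
  rintro ⟨h, -⟩
  have := T.dep_par u hu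
  omega

private lemma inT_root {u : V} (h : T.inT u T.o) : u = T.o := by
  have h2 := h.2
  rw [T.par_iter_o] at h2
  exact h2.symm

open Classical in
/-- truncation of the indicator of the subtree of `u` -/
private noncomputable def gT (u : V) (N : ℕ) (v : V) : ℂ :=
  if T.inT u v then ((max 0 (1 - ((T.dep v : ℝ) - T.dep u) / N) : ℝ) : ℂ) else 0

private lemma gT_support (u : V) {N : ℕ} (hN : 0 < N) (v : V) (hv : T.dep u + N < T.dep v) :
    T.gT u N v = 0 := by
  unfold gT
  split_ifs with h
  · have hN' : (0 : ℝ) < N := by exact_mod_cast hN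
    have h1 : (T.dep u : ℝ) + N < T.dep v := by exact_mod_cast hv
    have : 1 - ((T.dep v : ℝ) - T.dep u) / N ≤ 0 := by
      rw [sub_nonpos, le_div_iff₀ hN']
      linarith
    rw [max_eq_left this]
    simp
  · rfl

private lemma gT_fs (u : V) {N : ℕ} (hN : 0 < N) : FS (T.gT u N) := by
  refine (T.finite_dep_le (T.dep u + N)).subset fun v hv => ?_
  by_contra h
  exact hv (T.gT_support u hN v (by simpa using h))

private lemma max_lip (a b : ℝ) : |max 0 a - max 0 b| ≤ |a - b| := by
  rcases le_total 0 a with ha | ha <;> rcases le_total 0 b with hb | hb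
  · rw [max_eq_right ha, max_eq_right hb]
  · rw [max_eq_right ha, max_eq_left hb, sub_zero, abs_of_nonneg ha]
    exact (by linarith : a ≤ a - b).trans (le_abs_self _)
  · rw [max_eq_left ha, max_eq_right hb, zero_sub, abs_neg, abs_of_nonneg hb, abs_sub_comm]
    exact (by linarith : b ≤ b - a).trans (le_abs_self _)
  · rw [max_eq_left ha, max_eq_left hb]; simp

private lemma norm_D_gT_sub (u : V) {N : ℕ} (hN : 0 < N) (v : V) :
    ‖T.D (T.gT u N) v - (Pi.single u (1 : ℂ) : V → ℂ) v‖ ≤ 1 / N := by
  have hN' : (0 : ℝ) < N := by exact_mod_cast hN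
  have hself : T.gT u N u = 1 := by
    simp [gT, inT_self]
  by_cases hv : v = T.o
  · subst hv
    rw [D_o]
    by_cases hu : u = T.o
    · subst hu
      rw [Pi.single_eq_same, hself]; simp
    · rw [Pi.single_eq_of_ne (Ne.symm hu)]
      have : ¬ T.inT u T.o := fun h => hu (T.inT_root h)
      simp [gT, this]
  · rw [D_of_ne T _ hv]
    by_cases huv : v = u
    · subst huv
      rw [Pi.single_eq_same, hself]
      simp [gT, T.not_inT_par hv]
    · rw [Pi.single_eq_of_ne huv, sub_zero]
      by_cases hin : T.inT u v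
      · have hin' : T.inT u (T.par v) := (T.inT_par hv huv).1 hin
        simp only [gT, hin, hin', if_true]
        rw [← Complex.ofReal_sub, Complex.norm_real, Real.norm_eq_abs]
        refine (max_lip _ _).trans ?_
        have hd : (T.dep (T.par v) : ℝ) + 1 = T.dep v := by exact_mod_cast T.dep_par v hv
        have : (1 - ((T.dep v : ℝ) - T.dep u) / N) - (1 - ((T.dep (T.par v) : ℝ) - T.dep u) / N) =
            - (1 / N) := by
          rw [← hd]; field_simp; ring
        rw [this, abs_neg, abs_of_nonneg (by positivity)]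
      · have hin' : ¬ T.inT u (T.par v) := fun h => hin ((T.inT_par hv huv).2 h)
        simp only [gT, hin, hin', if_false, sub_self, norm_zero]
        positivity

private lemma eY_mem (Q : Submodule ℂ C₀(V, ℂ)) (hQ : IsClosed (Q : Set C₀(V, ℂ)))
    (h : ∀ v, T.yf (chi v) (chi_fs v) ∈ Q) (u : V) : eY u ∈ Q := by
  have h1 : eY u ∈ closure (Q : Set C₀(V, ℂ)) := by
    rw [Metric.mem_closure_iff]
    intro δ hδ
    obtain ⟨N, hN⟩ := exists_nat_one_div_lt hδ
    refine ⟨T.yf (T.gT u (N + 1)) (T.gT_fs u (Nat.succ_pos N)), T.yf_mem Q h _ _, ?_⟩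
    rw [dist_comm, dist_eq_norm]
    refine lt_of_le_of_lt (norm_le_of _ (M := 1 / ((N : ℝ) + 1)) (by positivity) fun v => ?_) hN
    have := T.norm_D_gT_sub u (Nat.succ_pos N) v
    rw [Nat.cast_succ] at this
    exact this
  rw [hQ.closure_eq] at h1
  exact h1

theorem eq_top_of_chi (Q : Submodule ℂ C₀(V, ℂ)) (hQ : IsClosed (Q : Set C₀(V, ℂ)))
    (h : ∀ v, T.yf (chi v) (chi_fs v) ∈ Q) : Q = ⊤ := by
  have hle : Submodule.span ℂ (Set.range (eY (V := V))) ≤ Q := by
    rw [Submodule.span_le]
    rintro _ ⟨u, rfl⟩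
    exact T.eY_mem Q hQ h u
  have hd : Dense (Q : Set C₀(V, ℂ)) := dense_span_eY.mono hle
  have h2 := hd.closure_eq
  rw [hQ.closure_eq] at h2
  exact SetLike.coe_injective (by rw [h2, Submodule.top_coe])

include T in
theorem separable : SeparableSpace C₀(V, ℂ) := by
  have hV : Countable V := by
    rw [← Set.countable_univ_iff]
    have h1 : (Set.univ : Set V) = ⋃ M : ℕ, {v | T.dep v ≤ M} := by
      ext v
      simp only [Set.mem_univ, Set.mem_iUnion, true_iff]
      exact ⟨T.dep v, le_refl (T.dep v)⟩
    rw [h1]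
    exact Set.countable_iUnion fun M => (T.finite_dep_le M).countable
  rw [← isSeparable_univ_iff]
  have h1 : IsSeparable (Set.range (eY (V := V))) := (Set.countable_range eY).isSeparable
  have h2 : IsSeparable (Submodule.span ℂ (Set.range (eY (V := V))) : Set C₀(V, ℂ)) := h1.span
  have h3 := h2.closure
  rwa [dense_span_eY.closure_eq] at h3

end PTree

end Pool.Agent.H69.LL
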