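import Mathlib

/-!
# Module Rk: a permutation of `ℕ × ℕ` which puts each point of `[0,K]²` in the middle of its own tooth

Let `N = M + K + 1`, `code w = N + Nat.pair w.1 w.2`, so `code w > M`, `code w > K` and `code` is injective, with inverse
`dec i = Nat.unpair (i - N)` for `i ≥ N`. Let `B = {w | w.1 ≤ K ∧ w.2 ≤ K}` and `C = {i | N ≤ i ∧ dec i ∈ B}`.
`R u = (code u, L)` if `u ∈ B`; for `u = (i, y)` with `i ∈ C`: `u` if `y < L` or `2L < y`, `dec i` if `y = 2L`, `(i, y+1)` otherwise
(`L ≤ y < 2L`); `R u = u` for the other `u` (note `B` and the teeth of `C` are disjoint because `i ≥ N > K`).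
Inverse: `z ↦ (code z, 2L)` if `z ∈ B`; for `z = (i, y)` with `i ∈ C`: `z` if `y < L` or `2L < y`, `dec i` if `y = L`, `(i, y-1)` if
`L < y ≤ 2L`; `z` otherwise. Both compositions are the identity by cases (`L = 0` is harmless: then `2L = L`; the case `y = 2L` of
`R` comes before `(i, y+1)`).
Finite support: `R u ≠ u` only for `u ∈ B` or `u = (code w, y)` with `w ∈ B`, `y ≤ 2L`.
-/

set_option autoImplicit false

namespace Pool.Agent.H69.LL

private def rkCode (N : ℕ) (w : ℕ × ℕ) : ℕ := N + Nat.pair w.1 w.2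

private def rkDec (N i : ℕ) : ℕ × ℕ := Nat.unpair (i - N)

private lemma rkDec_code (N : ℕ) (w : ℕ × ℕ) : rkDec N (rkCode N w) = w := by
  simp [rkDec, rkCode]

private lemma rkCode_dec {N i : ℕ} (h : N ≤ i) : rkCode N (rkDec N i) = i := by
  simp [rkDec, rkCode]
  omega

private def RkB (K : ℕ) (w : ℕ × ℕ) : Prop := w.1 ≤ K ∧ w.2 ≤ K

private def RkC (K N i : ℕ) : Prop := N ≤ i ∧ RkB K (rkDec N i)

private lemma rkC_code {K N : ℕ} {w : ℕ × ℕ} (h : RkB K w) : RkC K N (rkCode N w) :=
  ⟨Nat.le_add_right _ _, by rwa [rkDec_code]⟩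

private lemma rkB_not {K N i y : ℕ} (hN : K < N) (h : RkC K N i) : ¬ RkB K (i, y) := by
  intro h2
  have h3 : N ≤ i := h.1
  have h4 : i ≤ K := h2.1
  omega

open Classical in
private noncomputable def rkF (K L N : ℕ) (u : ℕ × ℕ) : ℕ × ℕ :=
  if RkB K u then (rkCode N u, L)
  else if RkC K N u.1 then
    (if u.2 < L ∨ 2 * L < u.2 then u else if u.2 = 2 * L then rkDec N u.1 else (u.1, u.2 + 1))
  else u

open Classical in
private noncomputable def rkG (K L N : ℕ) (u : ℕ × ℕ) : ℕ × ℕ :=
  if RkB K u then (rkCode N u, 2 * L)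
  else if RkC K N u.1 then
    (if u.2 < L ∨ 2 * L < u.2 then u else if u.2 = L then rkDec N u.1 else (u.1, u.2 - 1))
  else u

private lemma rk_left {K L N : ℕ} (hN : K < N) (u : ℕ × ℕ) : rkG K L N (rkF K L N u) = u := by
  obtain ⟨i, y⟩ := u
  by_cases hB : RkB K (i, y)
  · have e1 : rkF K L N (i, y) = (rkCode N (i, y), L) := by simp [rkF, hB]
    rw [e1]
    have hC := rkC_code (N := N) hB
    have hnB : ¬ RkB K (rkCode N (i, y), L) := rkB_not hN hC
    have h1 : ¬ (L < L ∨ 2 * L < L) := by omega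
    simp [rkG, hnB, hC, rkDec_code]
    omega
  · by_cases hC : RkC K N i
    · by_cases h1 : y < L ∨ 2 * L < y
      · have e1 : rkF K L N (i, y) = (i, y) := by simp [rkF, hB, hC, h1]
        rw [e1]
        simp [rkG, hB, hC, h1]
      · by_cases h2 : y = 2 * L
        · subst h2
          have e1 : rkF K L N (i, 2 * L) = rkDec N i := by
            simp only [rkF, hB, hC, h1, if_true, if_false]
          rw [e1]
          have hB2 : RkB K (rkDec N i) := hC.2
          simp only [rkG, hB2, if_true]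
          rw [rkCode_dec hC.1]
        · have e1 : rkF K L N (i, y) = (i, y + 1) := by
            simp only [rkF, hB, hC, h1, h2, if_true, if_false]
          rw [e1]
          have hnB : ¬ RkB K (i, y + 1) := rkB_not hN hC
          have h3 : ¬ (y + 1 < L ∨ 2 * L < y + 1) := by omega
          have h4 : ¬ (y + 1 = L) := by omega
          simp only [rkG, hnB, hC, h3, h4, if_true, if_false]
          rfl
    · have e1 : rkF K L N (i, y) = (i, y) := by simp [rkF, hB, hC]
      rw [e1]
      simp [rkG, hB, hC]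

private lemma rk_right {K L N : ℕ} (hN : K < N) (u : ℕ × ℕ) : rkF K L N (rkG K L N u) = u := by
  obtain ⟨i, y⟩ := u
  by_cases hB : RkB K (i, y)
  · have e1 : rkG K L N (i, y) = (rkCode N (i, y), 2 * L) := by simp [rkG, hB]
    rw [e1]
    have hC := rkC_code (N := N) hB
    have hnB : ¬ RkB K (rkCode N (i, y), 2 * L) := rkB_not hN hC
    have h1 : ¬ (2 * L < L ∨ 2 * L < 2 * L) := by omega
    simp only [rkF, hnB, hC, h1, if_true, if_false, rkDec_code]
  · by_cases hC : RkC K N i
    · by_cases h1 : y < L ∨ 2 * L < y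
      · have e1 : rkG K L N (i, y) = (i, y) := by simp [rkG, hB, hC, h1]
        rw [e1]
        simp [rkF, hB, hC, h1]
      · by_cases h2 : y = L
        · subst h2
          have e1 : rkG K y N (i, y) = rkDec N i := by
            simp only [rkG, hB, hC, h1, if_true, if_false]
          rw [e1]
          have hB2 : RkB K (rkDec N i) := hC.2
          simp only [rkF, hB2, if_true]
          rw [rkCode_dec hC.1]
        · have e1 : rkG K L N (i, y) = (i, y - 1) := by
            simp only [rkG, hB, hC, h1, h2, if_true, if_false]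
          rw [e1]
          have hnB : ¬ RkB K (i, y - 1) := rkB_not hN hC
          have h3 : ¬ (y - 1 < L ∨ 2 * L < y - 1) := by omega
          have h4 : ¬ (y - 1 = 2 * L) := by omega
          simp only [rkF, hnB, hC, h3, h4, if_true, if_false]
          congr 1
          omega
    · have e1 : rkG K L N (i, y) = (i, y) := by simp [rkG, hB, hC]
      rw [e1]
      simp [rkF, hB, hC]

theorem exists_R (K L M : ℕ) : ∃ R : Equiv.Perm (ℕ × ℕ), {w | R w ≠ w}.Finite ∧
    ∀ w : ℕ × ℕ, w.1 ≤ K → w.2 ≤ K → ∃ i : ℕ, M < i ∧ K < i ∧ R w = (i, L) ∧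
      (∀ y, y < L → R (i, y) = (i, y)) ∧ (∀ y, L ≤ y → y < 2 * L → R (i, y) = (i, y + 1)) ∧
      ∀ y, 2 * L < y → R (i, y) = (i, y) := by
  have hN : K < M + K + 1 := by omega
  refine ⟨⟨rkF K L (M + K + 1), rkG K L (M + K + 1), rk_left hN, rk_right hN⟩, ?_, ?_⟩
  · have hfB : {w : ℕ × ℕ | RkB K w}.Finite := by
      refine ((Set.finite_Iic K).prod (Set.finite_Iic K)).subset ?_
      intro w hw
      exact ⟨hw.1, hw.2⟩
    have hf2 : ((rkCode (M + K + 1) '' {w : ℕ × ℕ | RkB K w}) ×ˢ Set.Iic (2 * L)).Finite :=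
      (hfB.image _).prod (Set.finite_Iic _)
    refine (hfB.union hf2).subset ?_
    rintro ⟨i, y⟩ hw
    have hw' : rkF K L (M + K + 1) (i, y) ≠ (i, y) := hw
    by_cases hB : RkB K (i, y)
    · exact Or.inl hB
    · by_cases hC : RkC K (M + K + 1) i
      · by_cases h1 : y < L ∨ 2 * L < y
        · exact absurd (by simp [rkF, hB, hC, h1]) hw'
        · refine Or.inr ⟨⟨rkDec (M + K + 1) i, hC.2, rkCode_dec hC.1⟩, ?_⟩
          show y ≤ 2 * L
          omega
      · exact absurd (by simp [rkF, hB, hC]) hw'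
  · intro w h1 h2
    have hB : RkB K w := ⟨h1, h2⟩
    have hC := rkC_code (N := M + K + 1) hB
    have hnB : ∀ y, ¬ RkB K (rkCode (M + K + 1) w, y) := fun y => rkB_not hN hC
    have hge : M + K + 1 ≤ rkCode (M + K + 1) w := hC.1
    refine ⟨rkCode (M + K + 1) w, by omega, by omega, ?_, fun y hy => ?_, fun y hy hy2 => ?_, fun y hy => ?_⟩
    · show rkF K L (M + K + 1) w = _
      simp [rkF, hB]
    · show rkF K L (M + K + 1) _ = _
      simp [rkF, hnB y, hC, hy]
    · show rkF K L (M + K + 1) _ = _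
      have h3 : ¬ (y < L ∨ 2 * L < y) := by omega
      have h4 : ¬ (y = 2 * L) := by omega
      simp only [rkF, hnB y, hC, h3, h4, if_true, if_false]
    · show rkF K L (M + K + 1) _ = _
      simp [rkF, hnB y, hC, hy]

end Pool.Agent.H69.LL
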