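import Pool.Agent.H69.LL.Map
import Pool.Agent.H69.LL.Dns
import Pool.Agent.H69.LL.Rk

/-!
# Module Bwd: the indicators are approximated by functions with small images

`v = (m, u₀)`, `m ≥ 0`; `w₀` is the point with `phi^[q m] w₀ = u₀` (`phi_bijective`). The permutation `P (n - m) = R` at the level
`m - n` puts `w₀` at `(i, L)`, shifts the points `(i, y)`, `L ≤ y < 2L`, of the tooth `i` by one and fixes the other points of the
tooth `i`; `i > q m`, so `phi^[q m] (i, y) = (i - q m, y)` (`phi_add_two`), and `phi^[q m] z` is on the tooth `i - q m ≥ 1` iff `z` is on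
the tooth `i` (`fst_iterate` of `Pool/Agent/H70/CombMain.lean`... or `CombBump`).
`f = chi v + lift m (tooth (i - q m) gL)`, `gL y = y/L` for `y < L`, `(2L-1-y)/L` for `L ≤ y < 2L`, `0` for `y ≥ 2L`:
`gL 0 = 0`, steps `≤ 1/L`, so `‖D (f - chi v)‖ ≤ 1/L` (`D_lift`, `norm_D_tooth`).
`f ∘ Phi^[n] = lift (m - n) (tooth i tL)`, `tL y = y/L` for `y ≤ L`, `(2L-y)/L` for `L ≤ y ≤ 2L`, `0` for `y > 2L`: a point of another
level than `m - n` is mapped to a level `≠ m` (`Phi_level`); for `(m - n, z)`, `n ≥ m`: `Phi_neg` with `j = n - m`: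
`Phi^[n] (m - n, z) = (m, phi^[q m] (R.symm z))`; put `w = R.symm z`, so `z = R w`. If `w = w₀`: `z = (i, L)`, value `1 = tL L` (and
the tooth part of `f` is `0` at `u₀` because `w₀.1 ≤ K < i`). If `w = (i, y)`, `y < L`: `z = w`, `gL y = tL y`; `L ≤ y < 2L`:
`z = (i, y+1)`, `gL y = tL (y+1)`; `y > 2L`: both `0`; `y = 2L`: the value is `gL (2L) = 0`, and `z` is not on the tooth `i`, because
all `(i, y')` are images of the other points (`R` injective). If `w` is not on the tooth `i` and `w ≠ w₀`: the value is `0` and `z` is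
not on the tooth `i` for the same reason. So `‖c^n D (f ∘ Phi^[n])‖ ≤ 1/L`.
-/

set_option autoImplicit false

namespace Pool.Agent.H69.LL

open Pool.Agent.H70.LittleLip Filter Topology

/-- the property of the permutation `R` for the point `w₀` -/
def Puts (R : Equiv.Perm (ℕ × ℕ)) (L i : ℕ) (w₀ : ℕ × ℕ) : Prop :=
  R w₀ = (i, L) ∧ (∀ y, y < L → R (i, y) = (i, y)) ∧
    (∀ y, L ≤ y → y < 2 * L → R (i, y) = (i, y + 1)) ∧ ∀ y, 2 * L < y → R (i, y) = (i, y)

private theorem bwd_fst (n : ℕ) (w : ℕ × ℕ) : (phi^[n] w).1 = w.1 - n := by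
  induction n with
  | zero => simp
  | succ n ih =>
    rw [Function.iterate_succ_apply']
    obtain ⟨p, hp⟩ : ∃ p, p = phi^[n] w := ⟨_, rfl⟩
    rw [← hp] at ih ⊢
    obtain ⟨i, x⟩ := p
    have ih' : i = w.1 - n := ih
    rcases i with _ | _ | i
    · rw [phi_zero]
      show 0 = _
      omega
    · rw [phi_one]
      show 0 = _
      omega
    · rw [phi_add_two]
      show i + 1 = _
      omega

private theorem bwd_iter (n i y : ℕ) (h : n < i) : phi^[n] (i, y) = (i - n, y) := by
  induction n with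
  | zero => rfl
  | succ n ih =>
    rw [Function.iterate_succ_apply', ih (by omega)]
    obtain ⟨k, hk⟩ : ∃ k, i = k + n + 2 := ⟨i - n - 2, by omega⟩
    subst hk
    rw [show k + n + 2 - n = k + 2 by omega, phi_add_two]
    congr 1
    omega

private theorem bwd_ne {R : Equiv.Perm (ℕ × ℕ)} {L i : ℕ} {w₀ : ℕ × ℕ} (hR : Puts R L i w₀)
    {w : ℕ × ℕ} (h : (R w).1 = i) : w = w₀ ∨ (w.1 = i ∧ w.2 ≠ 2 * L) := by
  obtain ⟨h0, h1, h2, h3⟩ := hR
  obtain ⟨y, hy⟩ : ∃ y, R w = (i, y) := ⟨(R w).2, Prod.ext h rfl⟩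
  rcases lt_or_ge y L with hyL | hyL
  · have h4 : w = (i, y) := R.injective (hy.trans (h1 y hyL).symm)
    refine Or.inr ?_
    rw [h4]
    exact ⟨rfl, by show y ≠ 2 * L; omega⟩
  · rcases eq_or_lt_of_le hyL with h5 | h5
    · left
      rw [← h5] at hy
      exact R.injective (hy.trans h0.symm)
    · rcases le_or_gt y (2 * L) with h6 | h6
      · have h7 := h2 (y - 1) (by omega) (by omega)
        rw [show y - 1 + 1 = y by omega] at h7
        have h4 : w = (i, y - 1) := R.injective (hy.trans h7.symm)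
        refine Or.inr ?_
        rw [h4]
        exact ⟨rfl, by show y - 1 ≠ 2 * L; omega⟩
      · have h4 : w = (i, y) := R.injective (hy.trans (h3 y h6).symm)
        refine Or.inr ?_
        rw [h4]
        exact ⟨rfl, by show y ≠ 2 * L; omega⟩

/-- the profile on the tooth before the map -/
private noncomputable def gL (L y : ℕ) : ℂ :=
  if y < L then (y : ℂ) / L else if y < 2 * L then (2 * (L : ℂ) - 1 - y) / L else 0

/-- the profile on the tooth after the map -/
private noncomputable def tL (L y : ℕ) : ℂ :=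
  if y ≤ L then (y : ℂ) / L else if y ≤ 2 * L then (2 * (L : ℂ) - y) / L else 0

private theorem norm_inv_L {L : ℕ} : ‖(1 / (L : ℂ))‖ = 1 / (L : ℝ) := by
  rw [norm_div, norm_one, Complex.norm_natCast]

private theorem gL_step {L : ℕ} (hL : 0 < L) (y : ℕ) : ‖gL L (y + 1) - gL L y‖ ≤ 1 / L := by
  have hL' : (L : ℂ) ≠ 0 := by exact_mod_cast hL.ne'
  unfold gL
  rcases lt_trichotomy (y + 1) L with h | h | h
  · rw [if_pos h, if_pos (by omega)]
    have e : ((y + 1 : ℕ) : ℂ) / L - (y : ℂ) / L = 1 / L := by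
      push_cast
      ring
    rw [e, norm_inv_L]
  · rw [if_neg (by omega), if_pos (by omega), if_pos (by omega)]
    have e : (2 * (L : ℂ) - 1 - ((y + 1 : ℕ) : ℂ)) / L - (y : ℂ) / L = 0 := by
      rw [← h]
      push_cast
      ring
    rw [e, norm_zero]
    positivity
  · rw [if_neg (by omega), if_neg (show ¬ y < L by omega)]
    rcases lt_or_ge (y + 1) (2 * L) with h2 | h2
    · rw [if_pos h2, if_pos (by omega)]
      have e : (2 * (L : ℂ) - 1 - ((y + 1 : ℕ) : ℂ)) / L - (2 * (L : ℂ) - 1 - (y : ℂ)) / L = -(1 / L) := by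
        push_cast
        ring
      rw [e, norm_neg, norm_inv_L]
    · rw [if_neg (by omega)]
      rcases lt_or_ge y (2 * L) with h3 | h3
      · rw [if_pos h3]
        have h4 : 2 * L = y + 1 := by omega
        have h5 : 2 * (L : ℂ) = (y : ℂ) + 1 := by exact_mod_cast h4
        rw [h5]
        have e : (0 : ℂ) - ((y : ℂ) + 1 - 1 - y) / L = 0 := by
          ring
        rw [e, norm_zero]
        positivity
      · rw [if_neg (by omega), sub_zero, norm_zero]
        positivity

private theorem tL_step {L : ℕ} (hL : 0 < L) (y : ℕ) : ‖tL L (y + 1) - tL L y‖ ≤ 1 / L := by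
  have hL' : (L : ℂ) ≠ 0 := by exact_mod_cast hL.ne'
  unfold tL
  rcases lt_trichotomy y L with h | h | h
  · rw [if_pos (by omega), if_pos (by omega)]
    have e : ((y + 1 : ℕ) : ℂ) / L - (y : ℂ) / L = 1 / L := by
      push_cast
      ring
    rw [e, norm_inv_L]
  · rw [if_neg (by omega), if_pos (by omega), if_pos (by omega)]
    have e : (2 * (L : ℂ) - ((y + 1 : ℕ) : ℂ)) / L - (y : ℂ) / L = -(1 / L) := by
      rw [← h]
      push_cast
      ring
    rw [e, norm_neg, norm_inv_L]
  · rw [if_neg (by omega), if_neg (show ¬ y ≤ L by omega)]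
    rcases le_or_gt (y + 1) (2 * L) with h2 | h2
    · rw [if_pos h2, if_pos (by omega)]
      have e : (2 * (L : ℂ) - ((y + 1 : ℕ) : ℂ)) / L - (2 * (L : ℂ) - (y : ℂ)) / L = -(1 / L) := by
        push_cast
        ring
      rw [e, norm_neg, norm_inv_L]
    · rw [if_neg (by omega)]
      rcases le_or_gt y (2 * L) with h3 | h3
      · rw [if_pos h3]
        have h4 : 2 * L = y := by omega
        have h5 : 2 * (L : ℂ) = (y : ℂ) := by exact_mod_cast h4
        rw [h5]
        have e : (0 : ℂ) - ((y : ℂ) - y) / L = 0 := by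
          ring
        rw [e, norm_zero]
        positivity
      · rw [if_neg (by omega), sub_zero, norm_zero]
        positivity

private theorem bwd_val {R : Equiv.Perm (ℕ × ℕ)} {L i : ℕ} {w₀ : ℕ × ℕ} (hL : 0 < L)
    (hR : Puts R L i w₀) (hw : w₀.1 < i) (w : ℕ × ℕ) :
    (if w = w₀ then (1 : ℂ) else 0) + (if w.1 = i then gL L w.2 else 0) = tooth i (tL L) (R w) := by
  have hL' : (L : ℂ) ≠ 0 := by exact_mod_cast hL.ne'
  unfold tooth
  by_cases h0 : w = w₀
  · rw [if_pos h0, if_neg (by rw [h0]; omega), h0, hR.1]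
    show 1 + 0 = if i = i then tL L L else 0
    rw [if_pos rfl]
    unfold tL
    rw [if_pos le_rfl, div_self hL', add_zero]
  · rw [if_neg h0, zero_add]
    by_cases h1 : w.1 = i
    · rw [if_pos h1]
      obtain ⟨a, y⟩ := w
      have h1' : a = i := h1
      subst h1'
      show gL L y = _
      rcases lt_or_ge y L with h2 | h2
      · rw [hR.2.1 y h2]
        show _ = if a = a then tL L y else 0
        rw [if_pos rfl]
        unfold gL tL
        rw [if_pos h2, if_pos h2.le]
      · rcases lt_or_ge y (2 * L) with h3 | h3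
        · rw [hR.2.2.1 y h2 h3]
          show _ = if a = a then tL L (y + 1) else 0
          rw [if_pos rfl]
          unfold gL tL
          rw [if_neg (by omega), if_pos h3, if_neg (by omega), if_pos (by omega)]
          push_cast
          ring
        · have h4 : gL L y = 0 := by
            unfold gL
            rw [if_neg (by omega), if_neg (by omega)]
          rw [h4]
          rcases eq_or_lt_of_le h3 with h5 | h5
          · rw [if_neg]
            intro h6
            rcases bwd_ne hR h6 with h7 | h7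
            · exact h0 h7
            · exact h7.2 h5.symm
          · rw [hR.2.2.2 y h5]
            show _ = if a = a then tL L y else 0
            rw [if_pos rfl]
            unfold tL
            rw [if_neg (by omega), if_neg (by omega)]
    · rw [if_neg h1, if_neg]
      intro h6
      rcases bwd_ne hR h6 with h7 | h7
      · exact h0 h7
      · exact h1 h7.1

theorem bwd_one {q : ℕ} {P : ℕ → Equiv.Perm (ℕ × ℕ)} (hP0 : P 0 = 1) {c : ℂ} (hc : ‖c‖ ≤ 1)
    {m j L i : ℕ} (hL : 0 < L) {w₀ : ℕ × ℕ} (hR : Puts (P j) L i w₀) (hi : q * m < i) (hw : w₀.1 < i) :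
    ∃ f : V3 → ℂ, FS f ∧ (∀ x, ‖tr.D (f - chi ((m : ℤ), phi^[q * m] w₀)) x‖ ≤ 1 / L) ∧
      ∀ x, ‖tr.D (fun w => c ^ (j + m) * f ((Phi q P)^[j + m] w)) x‖ ≤ 1 / L := by
  have hL0 : (0 : ℝ) ≤ 1 / L := by positivity
  have hg0 : gL L 0 = 0 := by
    unfold gL
    rw [if_pos hL]
    simp
  have ht0 : tL L 0 = 0 := by
    unfold tL
    rw [if_pos (by omega)]
    simp
  have hto : ∀ (k : ℕ) (t : ℕ → ℂ), t 0 = 0 → tooth k t (0, 0) = 0 := by
    intro k t ht
    unfold tooth
    split_ifs
    · exact ht
    · rfl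
  obtain ⟨f, hf⟩ : ∃ f : V3 → ℂ, f = chi ((m : ℤ), phi^[q * m] w₀) + lift m (tooth (i - q * m) (gL L)) :=
    ⟨_, rfl⟩
  refine ⟨f, ?_, ?_, ?_⟩
  · have h1 : FS (chi ((m : ℤ), phi^[q * m] w₀) : V3 → ℂ) := chi_fs _
    have h2 : FS (lift m (tooth (i - q * m) (gL L))) := by
      refine fs_lift _ (fs_tooth (M := 2 * L) ?_)
      intro y hy
      unfold gL
      rw [if_neg (by omega), if_neg (by omega)]
    refine (h1.union h2).subset ?_
    intro v hv
    by_contra hcon
    rw [Set.mem_union, not_or] at hcon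
    obtain ⟨h3, h4⟩ := hcon
    have h3' : chi ((m : ℤ), phi^[q * m] w₀) v = (0 : ℂ) := by
      by_contra h
      exact h3 h
    have h4' : lift m (tooth (i - q * m) (gL L)) v = 0 := by
      by_contra h
      exact h4 h
    apply hv
    rw [hf, Pi.add_apply, h3', h4', add_zero]
  · intro x
    have h1 : f - chi ((m : ℤ), phi^[q * m] w₀) = lift m (tooth (i - q * m) (gL L)) := by
      rw [hf, add_sub_cancel_left]
    rw [h1, D_lift m (hto _ _ hg0)]
    split_ifs
    · exact norm_D_tooth hg0 hL0 (gL_step hL) _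
    · rw [norm_zero]
      exact hL0
  · have hmain : (fun w => f ((Phi q P)^[j + m] w)) = lift (-(j : ℤ)) (tooth i (tL L)) := by
      funext v
      obtain ⟨l, z⟩ := v
      by_cases hl : l = -(j : ℤ)
      · subst hl
        obtain ⟨w, hw'⟩ : ∃ w, w = (P j).symm z := ⟨_, rfl⟩
        have hz : z = P j w := by
          rw [hw', Equiv.apply_symm_apply]
        show f ((Phi q P)^[j + m] (-(j : ℤ), z)) = _
        rw [Phi_neg hP0, ← hw', hf, Pi.add_apply]
        have e1 : chi ((m : ℤ), phi^[q * m] w₀) ((m : ℤ), phi^[q * m] w) =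
            (if w = w₀ then (1 : ℂ) else 0) := by
          by_cases h : w = w₀
          · rw [if_pos h, h]
            exact Pi.single_eq_same _ _
          · rw [if_neg h]
            refine Pi.single_eq_of_ne ?_ _
            intro h2
            exact h ((phi_bijective.injective.iterate _) (Prod.ext_iff.1 h2).2)
        have e2 : lift m (tooth (i - q * m) (gL L)) ((m : ℤ), phi^[q * m] w) =
            (if w.1 = i then gL L w.2 else 0) := by
          unfold lift
          show (if (m : ℤ) = m then tooth (i - q * m) (gL L) (phi^[q * m] w) else 0) = _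
          rw [if_pos rfl]
          unfold tooth
          by_cases h : w.1 = i
          · rw [if_pos h]
            obtain ⟨a, y⟩ := w
            have h' : a = i := h
            subst h'
            rw [bwd_iter _ _ _ hi]
            show (if a - q * m = a - q * m then gL L y else 0) = gL L y
            rw [if_pos rfl]
          · rw [if_neg h, if_neg]
            rw [bwd_fst]
            omega
        rw [e1, e2, bwd_val hL hR hw, ← hz]
        unfold lift
        show _ = if -(j : ℤ) = -(j : ℤ) then _ else 0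
        rw [if_pos rfl]
      · have h1 := Phi_level q P (j + m) (l, z)
        have h2 : ((Phi q P)^[j + m] (l, z)).1 ≠ (m : ℤ) := by
          rw [h1]
          show l + ((j + m : ℕ) : ℤ) ≠ m
          push_cast
          intro h3
          exact hl (by linarith)
        show f ((Phi q P)^[j + m] (l, z)) = _
        rw [hf, Pi.add_apply]
        have e1 : chi ((m : ℤ), phi^[q * m] w₀) ((Phi q P)^[j + m] (l, z)) = (0 : ℂ) := by
          refine Pi.single_eq_of_ne ?_ _
          intro h3
          exact h2 (Prod.ext_iff.1 h3).1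
        have e2 : lift m (tooth (i - q * m) (gL L)) ((Phi q P)^[j + m] (l, z)) = 0 := if_neg h2
        have e3 : lift (-(j : ℤ)) (tooth i (tL L)) (l, z) = 0 := if_neg hl
        rw [e1, e2, e3, add_zero]
    have h1 : (fun w => c ^ (j + m) * f ((Phi q P)^[j + m] w)) =
        c ^ (j + m) • lift (-(j : ℤ)) (tooth i (tL L)) := by
      rw [← hmain]
      rfl
    intro x
    rw [h1, PTree.D_smul, Pi.smul_apply, norm_smul, norm_pow, D_lift _ (hto _ _ ht0)]
    have h2 : ‖c‖ ^ (j + m) ≤ 1 := pow_le_one₀ (norm_nonneg _) hc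
    have h3 : ‖(if x.1 = -(j : ℤ) then D (tooth i (tL L)) x.2 else 0)‖ ≤ 1 / L := by
      split_ifs
      · exact norm_D_tooth ht0 hL0 (tL_step hL) _
      · rw [norm_zero]
        exact hL0
    calc ‖c‖ ^ (j + m) * ‖(if x.1 = -(j : ℤ) then D (tooth i (tL L)) x.2 else 0)‖
        ≤ 1 * (1 / L) := mul_le_mul h2 h3 (norm_nonneg _) zero_le_one
      _ = 1 / L := one_mul _

end Pool.Agent.H69.LL
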