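import Mathlib

/-!
# Module Crit: a hypercyclicity criterion along a sequence of exponents

`crit`: copy of `exists_dense_orbit` (`Pool/Agent/H70/CombAbs.lean`, helper70). `W p = ⋃ m, {F | ‖B^m F - denseSeq p.1‖ < 1/(p.2+1)}` is
open; it is dense: given `F0`, `δ`, choose `F1'` in `{bwd}` near `F0`, `G` in `{fwd}` near `denseSeq p.1`, then `k` large with `F1`
near `F1'`, `‖B^(n k) F1‖` small, `U` small, `‖B^(n k) U - G‖` small; `F1 + U` is in `W p` near `F0`. Baire.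
`bwd_closed`, `fwd_closed`: if `‖F - F'‖ < ε/2` and `F1` works for `F'` with `ε/2`, it works for `F` with `ε`.
`add`, `smul` (for a scalar `a` use `ε/(‖a‖+1)`), `inv` (with `‖B‖`: use `ε/(‖B‖+1)`; `B` commutes with its powers).
-/

set_option autoImplicit false

namespace Pool.Agent.H69.LL

open Filter Topology TopologicalSpace

section

variable {Y : Type} [NormedAddCommGroup Y] [NormedSpace ℂ Y] (B : Y →L[ℂ] Y) (n : ℕ → ℕ)

/-- approximable by vectors whose `n k`-th images are small -/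
def Bw (F : Y) : Prop := ∀ ε : ℝ, 0 < ε → ∀ᶠ k : ℕ in atTop, ∃ F1 : Y, ‖F1 - F‖ < ε ∧ ‖(B ^ n k) F1‖ < ε

/-- approximable by `n k`-th images of small vectors -/
def Fw (G : Y) : Prop := ∀ ε : ℝ, 0 < ε → ∀ᶠ k : ℕ in atTop, ∃ U : Y, ‖U‖ < ε ∧ ‖(B ^ n k) U - G‖ < ε

private theorem small_smul {ε : ℝ} {a : ℂ} {v : Y} (hv : ‖v‖ < ε / (‖a‖ + 1)) :
    ‖a • v‖ < ε := by
  have ha : 0 < ‖a‖ + 1 := by positivity
  rw [norm_smul]
  have h1 : ‖v‖ * (‖a‖ + 1) < ε := (lt_div_iff₀ ha).1 hv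
  nlinarith [norm_nonneg v, norm_nonneg a]

private theorem small_map {ε : ℝ} {v : Y} (hv : ‖v‖ < ε / (‖B‖ + 1)) :
    ‖B v‖ < ε := by
  have ha : 0 < ‖B‖ + 1 := by positivity
  have h1 : ‖v‖ * (‖B‖ + 1) < ε := (lt_div_iff₀ ha).1 hv
  have h2 := B.le_opNorm v
  nlinarith [norm_nonneg v, norm_nonneg B]

private theorem pow_comm_apply (m : ℕ) (F : Y) : (B ^ m) (B F) = B ((B ^ m) F) := by
  have h : B ^ m * B = B * B ^ m := (Commute.refl B).pow_left m
  exact congrArg (fun T : Y →L[ℂ] Y => T F) h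

private theorem Bw_zero : Bw B n 0 := by
  intro ε hε
  exact Eventually.of_forall fun k => ⟨0, by simpa using hε, by simpa using hε⟩

private theorem Bw_add {F G : Y} (hF : Bw B n F) (hG : Bw B n G) : Bw B n (F + G) := by
  intro ε hε
  filter_upwards [hF (ε / 2) (by positivity), hG (ε / 2) (by positivity)] with k h1 h2
  obtain ⟨F1, a1, a2⟩ := h1
  obtain ⟨G1, b1, b2⟩ := h2
  refine ⟨F1 + G1, ?_, ?_⟩
  · have : F1 + G1 - (F + G) = (F1 - F) + (G1 - G) := by abel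
    rw [this]
    linarith [norm_add_le (F1 - F) (G1 - G)]
  · rw [map_add]
    linarith [norm_add_le ((B ^ n k) F1) ((B ^ n k) G1)]

private theorem Bw_smul (a : ℂ) {F : Y} (hF : Bw B n F) : Bw B n (a • F) := by
  intro ε hε
  filter_upwards [hF (ε / (‖a‖ + 1)) (by positivity)] with k h1
  obtain ⟨F1, a1, a2⟩ := h1
  refine ⟨a • F1, ?_, ?_⟩
  · rw [← smul_sub]
    exact small_smul a1
  · rw [map_smul]
    exact small_smul a2

theorem Bw_submodule : ∃ Q : Submodule ℂ Y, IsClosed (Q : Set Y) ∧ (∀ F, F ∈ Q ↔ Bw B n F) := by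
  refine ⟨{ carrier := {F | Bw B n F}
            add_mem' := fun h1 h2 => Bw_add B n h1 h2
            zero_mem' := Bw_zero B n
            smul_mem' := fun a _ h => Bw_smul B n a h }, ?_, fun F => Iff.rfl⟩
  refine isClosed_of_closure_subset fun F hF => ?_
  intro ε hε
  obtain ⟨F', hF', hd⟩ := Metric.mem_closure_iff.1 hF (ε / 2) (by positivity)
  filter_upwards [hF' (ε / 2) (by positivity)] with k h1
  obtain ⟨F1, a1, a2⟩ := h1
  refine ⟨F1, ?_, by linarith⟩
  rw [dist_comm, dist_eq_norm] at hd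
  have : F1 - F = (F1 - F') + (F' - F) := by abel
  rw [this]
  linarith [norm_add_le (F1 - F') (F' - F)]

private theorem Fw_zero : Fw B n 0 := by
  intro ε hε
  exact Eventually.of_forall fun k => ⟨0, by simpa using hε, by simpa using hε⟩

private theorem Fw_add {F G : Y} (hF : Fw B n F) (hG : Fw B n G) : Fw B n (F + G) := by
  intro ε hε
  filter_upwards [hF (ε / 2) (by positivity), hG (ε / 2) (by positivity)] with k h1 h2
  obtain ⟨F1, a1, a2⟩ := h1
  obtain ⟨G1, b1, b2⟩ := h2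
  refine ⟨F1 + G1, ?_, ?_⟩
  · linarith [norm_add_le F1 G1]
  · rw [map_add]
    have : (B ^ n k) F1 + (B ^ n k) G1 - (F + G) = ((B ^ n k) F1 - F) + ((B ^ n k) G1 - G) := by
      abel
    rw [this]
    linarith [norm_add_le ((B ^ n k) F1 - F) ((B ^ n k) G1 - G)]

private theorem Fw_smul (a : ℂ) {F : Y} (hF : Fw B n F) : Fw B n (a • F) := by
  intro ε hε
  filter_upwards [hF (ε / (‖a‖ + 1)) (by positivity)] with k h1
  obtain ⟨F1, a1, a2⟩ := h1
  refine ⟨a • F1, small_smul a1, ?_⟩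
  rw [map_smul, ← smul_sub]
  exact small_smul a2

theorem Fw_submodule : ∃ Q : Submodule ℂ Y, IsClosed (Q : Set Y) ∧ (∀ F, F ∈ Q ↔ Fw B n F) := by
  refine ⟨{ carrier := {F | Fw B n F}
            add_mem' := fun h1 h2 => Fw_add B n h1 h2
            zero_mem' := Fw_zero B n
            smul_mem' := fun a _ h => Fw_smul B n a h }, ?_, fun F => Iff.rfl⟩
  refine isClosed_of_closure_subset fun F hF => ?_
  intro ε hε
  obtain ⟨F', hF', hd⟩ := Metric.mem_closure_iff.1 hF (ε / 2) (by positivity)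
  filter_upwards [hF' (ε / 2) (by positivity)] with k h1
  obtain ⟨F1, a1, a2⟩ := h1
  refine ⟨F1, by linarith, ?_⟩
  rw [dist_comm, dist_eq_norm] at hd
  have : (B ^ n k) F1 - F = ((B ^ n k) F1 - F') + (F' - F) := by abel
  rw [this]
  linarith [norm_add_le ((B ^ n k) F1 - F') (F' - F)]

theorem Bw_inv {F : Y} (h : Bw B n F) : Bw B n (B F) := by
  intro ε hε
  filter_upwards [h (ε / (‖B‖ + 1)) (by positivity)] with k h1
  obtain ⟨F1, a1, a2⟩ := h1
  refine ⟨B F1, ?_, ?_⟩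
  · rw [← map_sub]
    exact small_map B a1
  · rw [pow_comm_apply]
    exact small_map B a2

theorem Fw_inv {F : Y} (h : Fw B n F) : Fw B n (B F) := by
  intro ε hε
  filter_upwards [h (ε / (‖B‖ + 1)) (by positivity)] with k h1
  obtain ⟨F1, a1, a2⟩ := h1
  refine ⟨B F1, small_map B a1, ?_⟩
  rw [pow_comm_apply, ← map_sub]
  exact small_map B a2

theorem crit [CompleteSpace Y] [SeparableSpace Y] (h1 : ∀ F, Bw B n F) (h2 : ∀ G, Fw B n G) :
    ∃ F : Y, ∀ G : Y, ∀ ε : ℝ, 0 < ε → ∃ m : ℕ, ‖(B ^ m) F - G‖ < ε := by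
  classical
  have : Nonempty Y := ⟨0⟩
  let W : ℕ × ℕ → Set Y := fun p =>
    ⋃ m : ℕ, {F : Y | ‖(B ^ m) F - denseSeq Y p.1‖ < 1 / ((p.2 : ℝ) + 1)}
  have hopen : ∀ p, IsOpen (W p) := by
    intro p
    refine isOpen_iUnion fun m => ?_
    exact isOpen_lt (((B ^ m).continuous.sub continuous_const).norm) continuous_const
  have hdense : ∀ p, Dense (W p) := by
    intro p
    rw [Metric.dense_iff]
    intro F0 δ hδ
    have hm : (0 : ℝ) < 1 / ((p.2 : ℝ) + 1) := by positivity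
    set η : ℝ := min (δ / 2) (1 / ((p.2 : ℝ) + 1) / 2) with hη
    have hηpos : 0 < η := lt_min (by positivity) (by positivity)
    obtain ⟨k, ⟨F1, a1, a2⟩, U, b1, b2⟩ := ((h1 F0 η hηpos).and (h2 (denseSeq Y p.1) η hηpos)).exists
    have c1 : η ≤ δ / 2 := min_le_left _ _
    have c2 : η ≤ 1 / ((p.2 : ℝ) + 1) / 2 := min_le_right _ _
    refine ⟨F1 + U, ?_, ?_⟩
    · rw [Metric.mem_ball, dist_eq_norm]
      have : F1 + U - F0 = (F1 - F0) + U := by abel
      rw [this]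
      linarith [norm_add_le (F1 - F0) U]
    · refine Set.mem_iUnion.2 ⟨n k, ?_⟩
      show ‖(B ^ n k) (F1 + U) - denseSeq Y p.1‖ < 1 / ((p.2 : ℝ) + 1)
      have hdec : (B ^ n k) (F1 + U) - denseSeq Y p.1 =
          (B ^ n k) F1 + ((B ^ n k) U - denseSeq Y p.1) := by
        rw [map_add]; abel
      rw [hdec]
      linarith [norm_add_le ((B ^ n k) F1) ((B ^ n k) U - denseSeq Y p.1)]
  have hD : Dense (⋂ p, W p) := dense_iInter_of_isOpen hopen hdense
  obtain ⟨F, hF⟩ := hD.nonempty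
  refine ⟨F, fun G ε hε => ?_⟩
  obtain ⟨m, hm⟩ := exists_nat_one_div_lt (half_pos hε)
  obtain ⟨k, hk⟩ := (denseRange_denseSeq Y).exists_dist_lt G (half_pos hε)
  have hFk := Set.mem_iInter.1 hF (k, m)
  obtain ⟨j, hj⟩ := Set.mem_iUnion.1 hFk
  refine ⟨j, ?_⟩
  have hj' : ‖(B ^ j) F - denseSeq Y k‖ < 1 / ((m : ℝ) + 1) := hj
  rw [dist_comm, dist_eq_norm] at hk
  calc ‖(B ^ j) F - G‖ = ‖((B ^ j) F - denseSeq Y k) + (denseSeq Y k - G)‖ := by congr 1; abel
    _ ≤ ‖(B ^ j) F - denseSeq Y k‖ + ‖denseSeq Y k - G‖ := norm_add_le _ _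
    _ < ε / 2 + ε / 2 := add_lt_add (hj'.trans hm) hk
    _ = ε := by ring

end

end Pool.Agent.H69.LL
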