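import Pool.Agent.H69.LL.Fn
import Pool.Agent.H70.CombOp

/-!
# Module ExT: the tree of combs, and functions on one level

The tree on `ℤ × (ℕ × ℕ)`: the level `m` is a copy of the comb of helper70 (`par`, `depth` in `Pool/Agent/H70/CombDefs.lean`), the
points `(m, (0,0))` form a line. `fin`: `par3 w = (m, u)` implies `w = (m, u')` with `par u' = u` (`u' ∈ {(u.1, u.2+1), (u.1+1, u.2), u}`)
or `w = (m ± 1, (0,0))` or `w = (m, u)`. `child`: `(m, (u.1, u.2+1))`.
`D_lift`: cases. For `w ≠ (0,0)` both points are on the level `m`; for `w = (0,0)` the parent is on another level (or the point is the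
root), where the function is `0` at `(·, (0,0))` because `g (0,0) = 0`, or the function is `0`.
`fs_lift`: image of a finite set.
-/

set_option autoImplicit false

namespace Pool.Agent.H69.LL

open Pool.Agent.H70.LittleLip

/-- the vertices: level, tooth, height -/
abbrev V3 : Type := ℤ × (ℕ × ℕ)

/-- the parent function of the tree of combs -/
def par3 (v : V3) : V3 :=
  if v.2 = (0, 0) then
    (if 0 < v.1 then (v.1 - 1, (0, 0)) else if v.1 < 0 then (v.1 + 1, (0, 0)) else (0, (0, 0)))
  else (v.1, par v.2)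

/-- the depth -/
def dep3 (v : V3) : ℕ := v.1.natAbs + depth v.2

theorem dep3_par (v : V3) (hv : v ≠ (0, (0, 0))) : dep3 (par3 v) + 1 = dep3 v := by
  obtain ⟨m, u⟩ := v
  by_cases hu : u = (0, 0)
  · subst hu
    have hm : m ≠ 0 := by
      rintro rfl
      exact hv rfl
    rcases lt_trichotomy m 0 with h | h | h
    · have h' : ¬ 0 < m := by omega
      simp only [par3, dep3, if_true, if_neg h', if_pos h]
      omega
    · exact absurd h hm
    · simp only [par3, dep3, if_true, if_pos h]
      omega
  · have h1 := depth_par hu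
    simp only [par3, dep3, if_neg hu]
    omega

theorem par3_fin (v : V3) : {w | par3 w = v}.Finite := by
  refine Set.Finite.subset (s := {v, (v.1 + 1, (0, 0)), (v.1 - 1, (0, 0)), (v.1, (v.2.1, v.2.2 + 1)),
    (v.1, (v.2.1 + 1, v.2.2))}) (by simp) ?_
  rintro ⟨m, u⟩ hw
  have hw' : par3 (m, u) = v := hw
  subst hw'
  simp only [Set.mem_insert_iff, Set.mem_singleton_iff]
  by_cases hu : u = (0, 0)
  · subst hu
    rcases lt_trichotomy m 0 with h | h | h
    · have h' : ¬ 0 < m := by omega
      right; right; left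
      simp only [par3, if_true, if_neg h', if_pos h, Prod.mk.injEq, and_true]
      omega
    · subst h
      left
      simp [par3]
    · right; left
      simp only [par3, if_true, if_pos h, Prod.mk.injEq, and_true]
      omega
  · obtain ⟨i, x⟩ := u
    rcases x with _ | x
    · rcases i with _ | i
      · exact absurd rfl hu
      · right; right; right; right
        simp [par3]
    · right; right; right; left
      simp [par3]

theorem par3_child (v : V3) : ∃ w, w ≠ (0, (0, 0)) ∧ par3 w = v := by
  obtain ⟨m, i, x⟩ := v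
  refine ⟨(m, (i, x + 1)), ?_, ?_⟩
  · intro h
    simp at h
  · simp [par3]

/-- the tree of combs -/
def tr : PTree V3 where
  par := par3
  o := (0, (0, 0))
  dep := dep3
  par_o := by simp [par3]
  dep_o := by simp [dep3, depth]
  dep_par := dep3_par
  fin := par3_fin
  child := par3_child

/-- a function on the level `l` -/
def lift (l : ℤ) (g : ℕ × ℕ → ℂ) (v : V3) : ℂ := if v.1 = l then g v.2 else 0

theorem D_lift (l : ℤ) {g : ℕ × ℕ → ℂ} (hg : g (0, 0) = 0) (v : V3) :
    tr.D (lift l g) v = if v.1 = l then D g v.2 else 0 := by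
  have h0 : ∀ m : ℤ, lift l g (m, (0, 0)) = 0 := by
    intro m
    simp [lift, hg]
  obtain ⟨m, u⟩ := v
  by_cases hu : u = (0, 0)
  · subst hu
    have h1 : tr.D (lift l g) (m, (0, 0)) = 0 := by
      by_cases hv : ((m, (0, 0)) : V3) = tr.o
      · rw [hv, tr.D_o]
        exact h0 0
      · rw [tr.D_of_ne _ hv, h0]
        have h2 : ∃ m' : ℤ, tr.par (m, (0, 0)) = (m', (0, 0)) := by
          show ∃ m' : ℤ, par3 (m, (0, 0)) = (m', (0, 0))
          unfold par3
          split_ifs
          · exact ⟨_, rfl⟩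
          · exact ⟨_, rfl⟩
          · exact ⟨_, rfl⟩
          · exact absurd rfl (by assumption)
        obtain ⟨m', hm'⟩ := h2
        rw [hm', h0, sub_zero]
    rw [h1]
    split_ifs
    · show (0 : ℂ) = D g (0, 0)
      rw [D_root, hg]
    · rfl
  · have hv : ((m, u) : V3) ≠ tr.o := by
      intro h
      have h1 : ((m, u) : V3) = (0, (0, 0)) := h
      simp only [Prod.mk.injEq] at h1
      exact hu h1.2
    have hp : tr.par (m, u) = (m, par u) := by
      show par3 (m, u) = (m, par u)
      simp only [par3, if_neg hu]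
    rw [tr.D_of_ne _ hv, hp]
    show (if m = l then g u else 0) - (if m = l then g (par u) else 0) = if m = l then D g u else 0
    split_ifs
    · rw [D_of_ne g hu]
    · rw [sub_zero]

theorem fs_lift (l : ℤ) {g : ℕ × ℕ → ℂ} (hg : FS g) : FS (lift l g) := by
  refine (Set.Finite.image (fun u : ℕ × ℕ => ((l, u) : V3)) hg).subset ?_
  rintro ⟨m, u⟩ hv
  have hv' : lift l g (m, u) ≠ 0 := hv
  unfold lift at hv'
  by_cases hm : m = l
  · subst hm
    refine ⟨u, ?_, rfl⟩
    show g u ≠ 0
    simpa using hv'
  · exact absurd (if_neg hm) hv'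

/-- a function on one tooth of the comb -/
def tooth (i : ℕ) (t : ℕ → ℂ) (u : ℕ × ℕ) : ℂ := if u.1 = i then t u.2 else 0

theorem norm_D_tooth {i : ℕ} {t : ℕ → ℂ} {ε : ℝ} (h0 : t 0 = 0) (hε : 0 ≤ ε)
    (h : ∀ y, ‖t (y + 1) - t y‖ ≤ ε) (u : ℕ × ℕ) : ‖D (tooth i t) u‖ ≤ ε := by
  have hz : ∀ j : ℕ, tooth i t (j, 0) = 0 := by
    intro j
    simp [tooth, h0]
  obtain ⟨j, x⟩ := u
  rcases x with _ | x
  · rcases j with _ | j
    · rw [D_root, hz, norm_zero]
      exact hε
    · rw [D_spine, hz, hz, sub_zero, norm_zero]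
      exact hε
  · rw [D_tooth]
    by_cases hj : j = i
    · subst hj
      simpa [tooth] using h x
    · simpa [tooth, hj] using hε

theorem fs_tooth {i : ℕ} {t : ℕ → ℂ} {M : ℕ} (h : ∀ y, M < y → t y = 0) : FS (tooth i t) := by
  refine ((Set.finite_singleton i).prod (Set.finite_Iic M)).subset ?_
  rintro ⟨j, x⟩ hv
  have hv' : tooth i t (j, x) ≠ 0 := hv
  unfold tooth at hv'
  by_cases hj : j = i
  · refine ⟨hj, ?_⟩
    show x ≤ M
    by_contra hx
    apply hv'
    simp only [if_pos hj]
    exact h x (by omega)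
  · exact absurd (if_neg hj) hv'

end Pool.Agent.H69.LL
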