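import Pool.Agent.H69.LL.Tree

/-!
# Module Fn: differences of functions on a tree

Copies of the lemmas of `Pool/Agent/H70/CombOp.lean` and `CombMain.lean` (helper70) for a general `T : PTree V`.
`D_S`: for `v ≠ o`: `dep v = dep (par v) + 1`, `Finset.sum_range_succ'` gives `S F v = S F (par v) + F v`; for `v = o` the sum has one
term. `S_D`: induction on `dep v` with the same recursion. `tendsto_cofinite_iff`, `mkY`, `Y_tendsto`, `norm_apply_le`, `norm_le_of`:
word for word as in `CombOp.lean`. `D_tendsto_of_fs`: `D f v ≠ 0` implies `f v ≠ 0` or `f (par v) ≠ 0`, so `v` is in a finite set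
(`T.fin`). `mem_littleLip_iff`, `lipNorm_le`, `norm_D_le_lipNorm`: as in `CombMain.lean` (`T.isParent_iff`; the index type of the
supremum is nonempty by `T.child T.o`).
-/

set_option autoImplicit false

namespace Pool.Agent.H69.LL

open Pool.Agent.H70.LittleLip Filter Topology
open scoped ZeroAtInfty

/-- finite support -/
def FS {V : Type} (f : V → ℂ) : Prop := {v | f v ≠ 0}.Finite

namespace PTree

variable {V : Type} [DecidableEq V] (T : PTree V)

/-- The difference operator. -/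
def D (f : V → ℂ) (v : V) : ℂ := if v = T.o then f v else f v - f (T.par v)

/-- The inverse of the difference operator. -/
def S (F : V → ℂ) (v : V) : ℂ := ∑ k ∈ Finset.range (T.dep v + 1), F (T.par^[k] v)

lemma D_o (f : V → ℂ) : T.D f T.o = f T.o := by simp [D]

lemma D_of_ne (f : V → ℂ) {v : V} (hv : v ≠ T.o) : T.D f v = f v - f (T.par v) := by simp [D, hv]

lemma D_sub (f g : V → ℂ) : T.D (f - g) = T.D f - T.D g := by
  funext v
  simp only [D, Pi.sub_apply]
  split_ifs <;> ring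

lemma D_add (f g : V → ℂ) : T.D (f + g) = T.D f + T.D g := by
  funext v
  simp only [D, Pi.add_apply]
  split_ifs <;> ring

lemma D_smul (a : ℂ) (f : V → ℂ) : T.D (a • f) = a • T.D f := by
  funext v
  simp only [D, Pi.smul_apply, smul_eq_mul]
  split_ifs <;> ring

omit [DecidableEq V] in
lemma S_of_ne (F : V → ℂ) {v : V} (hv : v ≠ T.o) : T.S F v = T.S F (T.par v) + F v := by
  unfold S
  rw [← T.dep_par v hv, Finset.sum_range_succ']
  simp only [Function.iterate_succ_apply, Function.iterate_zero, id_eq]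

omit [DecidableEq V] in
lemma S_o (F : V → ℂ) : T.S F T.o = F T.o := by
  unfold S
  rw [T.dep_o]
  simp

theorem D_S (F : V → ℂ) : T.D (T.S F) = F := by
  funext v
  by_cases hv : v = T.o
  · subst hv
    rw [D_o, S_o]
  · rw [D_of_ne T _ hv, S_of_ne T F hv]
    ring

theorem S_D (f : V → ℂ) : T.S (T.D f) = f := by
  have h : ∀ n : ℕ, ∀ v, T.dep v = n → T.S (T.D f) v = f v := by
    intro n
    induction n with
    | zero =>
      intro v hv
      by_cases h0 : v = T.o
      · subst h0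
        rw [S_o, D_o]
      · have := T.dep_par v h0
        omega
    | succ n ih =>
      intro v hv
      have h0 : v ≠ T.o := by
        rintro rfl
        rw [T.dep_o] at hv
        omega
      have h1 := T.dep_par v h0
      rw [S_of_ne T _ h0, ih (T.par v) (by omega), D_of_ne T _ h0]
      ring
  funext v
  exact h _ v rfl

theorem D_tendsto_of_fs {f : V → ℂ} (h : FS f) : Tendsto (T.D f) cofinite (𝓝 0) := by
  have hfin : ({v | f v ≠ 0} ∪ ⋃ u ∈ {v | f v ≠ 0}, {w | T.par w = u}).Finite :=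
    h.union (Set.Finite.biUnion h fun u _ => T.fin u)
  refine tendsto_nhds_of_eventually_eq ?_
  rw [Filter.eventually_cofinite]
  refine hfin.subset fun v hv => ?_
  by_contra hn
  apply hv
  have h1 : f v = 0 := by
    by_contra h1
    exact hn (Or.inl h1)
  have h2 : f (T.par v) = 0 := by
    by_contra h2
    refine hn (Or.inr ?_)
    simp only [Set.mem_iUnion]
    exact ⟨T.par v, h2, rfl⟩
  unfold D
  split_ifs
  · exact h1
  · rw [h1, h2, sub_zero]

end PTree

section C0

variable {V : Type}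

theorem tendsto_cofinite_iff (F : V → ℂ) :
    Tendsto F cofinite (𝓝 0) ↔ ∀ ε : ℝ, 0 < ε → {v | ε ≤ ‖F v‖}.Finite := by
  rw [Metric.tendsto_nhds]
  refine forall₂_congr fun ε _ => ?_
  rw [Filter.eventually_cofinite]
  simp [dist_zero_right, not_lt]

variable [TopologicalSpace V] [DiscreteTopology V]

/-- Turn a function tending to zero along the cofinite filter into an element of `C₀`. -/
def mkY (F : V → ℂ) (hF : Tendsto F cofinite (𝓝 0)) : C₀(V, ℂ) :=
  ⟨⟨F, continuous_of_discreteTopology⟩, by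
    rw [cocompact_eq_cofinite]; exact hF⟩

@[simp] lemma mkY_apply (F : V → ℂ) (hF : Tendsto F cofinite (𝓝 0)) (v : V) :
    mkY F hF v = F v := rfl

lemma Y_tendsto (F : C₀(V, ℂ)) : Tendsto (F : V → ℂ) cofinite (𝓝 0) := by
  have := F.zero_at_infty'
  rw [cocompact_eq_cofinite] at this
  exact this

lemma norm_apply_le (F : C₀(V, ℂ)) (v : V) : ‖F v‖ ≤ ‖F‖ := by
  rw [← ZeroAtInftyContinuousMap.norm_toBCF_eq_norm]
  exact F.toBCF.norm_coe_le_norm v

lemma norm_le_of (F : C₀(V, ℂ)) {M : ℝ} (hM : 0 ≤ M) (h : ∀ v, ‖F v‖ ≤ M) : ‖F‖ ≤ M := by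
  rw [← ZeroAtInftyContinuousMap.norm_toBCF_eq_norm]
  exact (BoundedContinuousFunction.norm_le hM).2 h

end C0

namespace PTree

variable {V : Type} [DecidableEq V] (T : PTree V)

theorem mem_littleLip_iff (f : V → ℂ) :
    f ∈ littleLip T.graph T.o ↔ Tendsto (T.D f) cofinite (𝓝 0) := by
  rw [tendsto_cofinite_iff]
  refine forall₂_congr fun ε _ => ?_
  have h1 : {v : V | ∃ w, IsParent T.graph T.o w v ∧ ε ≤ ‖f v - f w‖} ⊆
      {v | ε ≤ ‖T.D f v‖} := by
    rintro v ⟨w, hw, hε⟩
    rw [T.isParent_iff] at hw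
    obtain ⟨hv, rfl⟩ := hw
    show ε ≤ ‖T.D f v‖
    rwa [T.D_of_ne f hv]
  have h2 : {v | ε ≤ ‖T.D f v‖} ⊆
      {v : V | ∃ w, IsParent T.graph T.o w v ∧ ε ≤ ‖f v - f w‖} ∪ {T.o} := by
    intro v hv
    by_cases h0 : v = T.o
    · exact Or.inr h0
    · left
      refine ⟨T.par v, T.isParent_iff.2 ⟨h0, rfl⟩, ?_⟩
      have hv' : ε ≤ ‖T.D f v‖ := hv
      rwa [T.D_of_ne f h0] at hv'
  constructor
  · intro h
    exact (h.union (Set.finite_singleton _)).subset h2
  · intro h
    exact h.subset h1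

theorem lipNorm_le {f : V → ℂ} {M : ℝ} (h : ∀ v, ‖T.D f v‖ ≤ M) : lipNorm T.graph T.o f ≤ M := by
  obtain ⟨w, hw, hpw⟩ := T.child T.o
  haveI : Nonempty {p : V × V // IsParent T.graph T.o p.1 p.2} :=
    ⟨⟨(T.o, w), T.isParent_iff.2 ⟨hw, hpw.symm⟩⟩⟩
  unfold lipNorm
  refine max_le ?_ (ciSup_le ?_)
  · have := h T.o
    rwa [T.D_o] at this
  · rintro ⟨⟨w, v⟩, hp⟩
    have hp' := T.isParent_iff.1 hp
    obtain ⟨hv, hw⟩ := hp'
    simp only at hw hv ⊢
    rw [hw, ← T.D_of_ne f hv]
    exact h v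

theorem norm_D_le_lipNorm {f : V → ℂ} (hf : f ∈ littleLip T.graph T.o) (v : V) :
    ‖T.D f v‖ ≤ lipNorm T.graph T.o f := by
  letI : TopologicalSpace V := ⊥
  haveI : DiscreteTopology V := ⟨rfl⟩
  unfold lipNorm
  by_cases hv : v = T.o
  · subst hv
    rw [T.D_o]
    exact le_max_left _ _
  · rw [T.D_of_ne f hv]
    refine le_trans ?_ (le_max_right _ _)
    have hbdd : BddAbove (Set.range fun p : {p : V × V // IsParent T.graph T.o p.1 p.2} =>
        ‖f p.1.2 - f p.1.1‖) := by
      refine ⟨‖mkY (T.D f) ((T.mem_littleLip_iff f).1 hf)‖, ?_⟩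
      rintro _ ⟨⟨⟨w, v⟩, hp⟩, rfl⟩
      obtain ⟨hv, hw⟩ := T.isParent_iff.1 hp
      simp only at hw hv ⊢
      rw [hw, ← T.D_of_ne f hv]
      exact norm_apply_le (mkY (T.D f) ((T.mem_littleLip_iff f).1 hf)) v
    exact le_ciSup hbdd ⟨(T.par v, v), T.isParent_iff.2 ⟨hv, rfl⟩⟩

end PTree

end Pool.Agent.H69.LL
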