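import Pool.Agent.H69.LL.Map
import Pool.Agent.H69.LL.Dns
import Pool.Agent.H70.CombMain

/-!
# Module Fwd: images of small functions approximate the indicators

`v = (m, u₀)`, `m ≥ 0`. Choose `c'` with `c' ^ q = c` (`IsAlgClosed.exists_pow_nat_eq`), so `1/2 < ‖c'‖`, `c' ^ (q n) = c ^ n`. Let
`u = lift (m + n) (un c' u₀ N (q n))` (`un` of `Pool/Agent/H70/CombMain.lean`), `N` with `4/N ≤ ε`. Then
`D (lift ..)` by `D_lift` (`un_root`: `un .. (0,0) = 0` for `u₀.1 + 1 ≤ q n`), `‖D u‖ ≤ 2 ^ (u₀.1 + N) * ((2 ‖c'‖)^(q n))⁻¹ → 0`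
(`norm_D_un`), finite support by `un_support` (`finite_depth_le`) and `fs_lift`.
`c ^ n * u (Phi^[n] w) - chi v w`: for `w = (l, z)`, `Phi_level`: `(Phi^[n] w).1 = l + n`, equal to `m + n` iff `l = m`; then
`Phi_pos`, `un_image`: the function is `lift m (kn u₀ N (q n))` (`kn` = that formula), `kn (0,0) = 0` (`kn_spine`), `norm_D_kn`.
-/

set_option autoImplicit false

namespace Pool.Agent.H69.LL

open Pool.Agent.H70.LittleLip Filter Topology

theorem fwd {q : ℕ} (hq : 0 < q) (P : ℕ → Equiv.Perm (ℕ × ℕ)) {c : ℂ} (hc : (1 / 2) ^ q < ‖c‖)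
    (v : V3) (hv : 0 ≤ v.1) {ε : ℝ} (hε : 0 < ε) :
    ∀ᶠ n : ℕ in atTop, ∃ u : V3 → ℂ, FS u ∧ (∀ x, ‖tr.D u x‖ ≤ ε) ∧
      ∀ x, ‖tr.D ((fun w => c ^ n * u ((Phi q P)^[n] w)) - chi v) x‖ ≤ ε := by
  obtain ⟨l0, u₀⟩ := v
  obtain ⟨m, hm⟩ := Int.eq_ofNat_of_zero_le hv
  simp only at hm
  subst hm
  obtain ⟨c', hc'⟩ := IsAlgClosed.exists_pow_nat_eq c hq
  have hc2 : 1 / 2 < ‖c'‖ := by
    have h1 : (1 / 2 : ℝ) ^ q < ‖c'‖ ^ q := by
      rw [← norm_pow, hc']; exact hc
    exact lt_of_pow_lt_pow_left₀ q (norm_nonneg _) h1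
  have hc0 : c' ≠ 0 := by
    rintro rfl
    rw [norm_zero] at hc2
    norm_num at hc2
  obtain ⟨N, hNε⟩ := exists_nat_gt (4 / ε)
  have hN' : (0 : ℝ) < N := lt_trans (by positivity) hNε
  have hN : 0 < N := by exact_mod_cast hN'
  have h4 : 4 / (N : ℝ) ≤ ε := by
    rw [div_le_iff₀ hN']
    rw [div_lt_iff₀ hε] at hNε
    linarith
  have ht : Tendsto (fun n : ℕ => 2 ^ (u₀.1 + N) * ((2 * ‖c'‖) ^ (q * n))⁻¹) atTop (𝓝 0) := by
    have h1 : Tendsto (fun n : ℕ => q * n) atTop atTop := tendsto_id.const_mul_atTop' hq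
    have h2 := (tendsto_pow_atTop_atTop_of_one_lt (r := 2 * ‖c'‖) (by linarith)).comp h1
    have h3 := (h2.inv_tendsto_atTop).const_mul ((2 : ℝ) ^ (u₀.1 + N))
    rw [mul_zero] at h3
    exact h3
  filter_upwards [ht.eventually_le_const hε, eventually_ge_atTop (u₀.1 + 1)] with n hn1 hn2
  have hqn : u₀.1 + 1 ≤ q * n := hn2.trans (Nat.le_mul_of_pos_left n hq)
  have hroot : un c' u₀ N (q * n) (0, 0) = 0 := un_root hqn
  refine ⟨lift ((m + n : ℕ) : ℤ) (un c' u₀ N (q * n)), ?_, ?_, ?_⟩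
  · apply fs_lift
    obtain ⟨M, hM⟩ := un_support (c := c') u₀ N (q * n)
    refine (finite_depth_le M).subset fun w hw => ?_
    by_contra hcon
    exact hw (hM w (not_le.mp hcon))
  · intro x
    rw [D_lift _ hroot]
    split_ifs
    · exact (norm_D_un hN hqn _).trans hn1
    · rw [norm_zero]; exact hε.le
  · have he : ((fun w : V3 => c ^ n * lift ((m + n : ℕ) : ℤ) (un c' u₀ N (q * n))
        ((Phi q P)^[n] w)) - chi ((m : ℤ), u₀)) = lift (m : ℤ) (kn u₀ N (q * n)) := by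
      funext w
      obtain ⟨l, z⟩ := w
      show c ^ n * lift ((m + n : ℕ) : ℤ) (un c' u₀ N (q * n)) ((Phi q P)^[n] (l, z)) -
        chi ((m : ℤ), u₀) (l, z) = lift (m : ℤ) (kn u₀ N (q * n)) (l, z)
      by_cases hl : l = (m : ℤ)
      · subst hl
        rw [Phi_pos]
        unfold lift
        rw [if_pos rfl, if_pos rfl, ← hc', ← pow_mul, un_image hc0]
        unfold kn chi
        congr 1
        by_cases hz : z = u₀
        · subst hz
          rw [Pi.single_eq_same, Pi.single_eq_same]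
        · rw [Pi.single_eq_of_ne hz, Pi.single_eq_of_ne]
          intro h
          exact hz (Prod.mk.inj h).2
      · have h1 := Phi_level q P n (l, z)
        unfold lift
        rw [if_neg, if_neg hl, mul_zero, zero_sub, neg_eq_zero]
        · unfold chi
          rw [Pi.single_eq_of_ne]
          intro h
          exact hl (Prod.mk.inj h).1
        · intro h
          rw [h1] at h
          apply hl
          push_cast at h
          linarith
    intro x
    rw [he, D_lift _ (kn_spine hN (by omega) 0)]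
    split_ifs
    · exact (norm_D_kn hN (by omega) _).trans h4
    · rw [norm_zero]; exact hε.le

end Pool.Agent.H69.LL
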