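import Pool.Agent.H69.LL.Fn

/-!
# Module Op: Lipschitz injections give composition operators

`anc_sub`: if `par^[a] x = par^[b] y` with `a, b ≤ K`, then `f x - f y` is the sum of at most `a + b ≤ 2K` differences
`f (par^[t] x) - f (par^[t+1] x)`, `t < a`, and `f (par^[t] y) - f (par^[t+1] y)`, `t < b`, each of them is `0` or `D f` at
`par^[t] x`, `par^[t] y`, vertices of depth `≥ dep x - K`, `≥ dep y - K`.
`comp_bound`: for `v ≠ o` use `anc_sub` (constant `2K`); at the root `‖f (φ o)‖ ≤ (dep (φ o) + 1) M` (`f = S (D f)`), so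
`C = 2K + dep (φ o) + 1`.
`comp_tendsto`: given `ε > 0`, the set `{u | ε/(2K+1) ≤ ‖D f u‖}` is finite, let `M` bound the depths of its elements. If
`dep (φ v) > M + K` and `dep (φ (par v)) > M + K` (`v ≠ o`), then `‖D (f ∘ φ) v‖ < ε`. The other `v` are finitely many: `φ` is
injective, `{dep ≤ M + K}` is finite, and `{v | par v ∈ finite set}` is finite (`T.fin`).
`anc_trans`: `par^[a₁] x = par^[a₂] y`, `par^[b₁] y = par^[b₂] z`; let `t = max a₂ b₁`; then
`par^[a₁ + (t - a₂)] x = par^[t] y = par^[b₂ + (t - b₁)] z`.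
-/

set_option autoImplicit false

namespace Pool.Agent.H69.LL

open Pool.Agent.H70.LittleLip Filter Topology

namespace PTree

variable {V : Type} [DecidableEq V] (T : PTree V)

/-- `x` and `y` have a common ancestor at most `K` steps above each of them. -/
def Anc (K : ℕ) (x y : V) : Prop := ∃ a ≤ K, ∃ b ≤ K, T.par^[a] x = T.par^[b] y

/-- Lipschitz injections of the tree. -/
structure Lip (K : ℕ) (φ : V → V) : Prop where
  inj : Function.Injective φ
  anc : ∀ v, v ≠ T.o → T.Anc K (φ v) (φ (T.par v))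

variable {T} {K : ℕ} {φ : V → V}

theorem anc_trans {K L : ℕ} {x y z : V} (h₁ : T.Anc K x y) (h₂ : T.Anc L y z) :
    T.Anc (K + L) x z := by
  obtain ⟨a₁, ha₁, a₂, ha₂, e₁⟩ := h₁
  obtain ⟨b₁, hb₁, b₂, hb₂, e₂⟩ := h₂
  refine ⟨(max a₂ b₁ - a₂) + a₁, by omega, (max a₂ b₁ - b₁) + b₂, by omega, ?_⟩
  rw [Function.iterate_add_apply, Function.iterate_add_apply, e₁, ← e₂, ← Function.iterate_add_apply,
    ← Function.iterate_add_apply]
  have h3 : max a₂ b₁ - a₂ + a₂ = max a₂ b₁ - b₁ + b₁ := by omega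
  rw [h3]

private theorem step_le (f : V → ℂ) (u : V) : ‖f u - f (T.par u)‖ ≤ ‖T.D f u‖ := by
  by_cases hu : u = T.o
  · subst hu
    rw [T.par_o, sub_self, norm_zero]
    exact norm_nonneg _
  · rw [T.D_of_ne f hu]

private theorem iter_le (f : V → ℂ) (M : ℝ) (a : ℕ) (x : V)
    (h : ∀ t < a, ‖T.D f (T.par^[t] x)‖ ≤ M) : ‖f x - f (T.par^[a] x)‖ ≤ a * M := by
  induction a with
  | zero => simp
  | succ a ih =>
    have h1 := ih fun t ht => h t (by omega)
    have h2 : ‖f (T.par^[a] x) - f (T.par^[a + 1] x)‖ ≤ M := by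
      rw [Function.iterate_succ_apply']
      exact (step_le f _).trans (h a (by omega))
    have h3 : f x - f (T.par^[a + 1] x) = (f x - f (T.par^[a] x)) +
        (f (T.par^[a] x) - f (T.par^[a + 1] x)) := by ring
    rw [h3]
    refine (norm_add_le _ _).trans ?_
    push_cast
    linarith

private theorem dep_iter_le (v : V) (t : ℕ) : T.dep v ≤ T.dep (T.par^[t] v) + t := by
  induction t with
  | zero => simp
  | succ t ih =>
    rw [Function.iterate_succ_apply']
    have h1 : T.dep (T.par^[t] v) ≤ T.dep (T.par (T.par^[t] v)) + 1 := by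
      by_cases hu : T.par^[t] v = T.o
      · rw [hu, T.dep_o]; omega
      · have := T.dep_par _ hu
        omega
    omega

private theorem anc_le {f : V → ℂ} {M : ℝ} {x y : V} {a b : ℕ} (e : T.par^[a] x = T.par^[b] y)
    (hx : ∀ t < a, ‖T.D f (T.par^[t] x)‖ ≤ M) (hy : ∀ t < b, ‖T.D f (T.par^[t] y)‖ ≤ M) :
    ‖f x - f y‖ ≤ (a + b) * M := by
  have h1 := iter_le f M a x hx
  have h2 := iter_le f M b y hy
  have h3 : f x - f y = (f x - f (T.par^[a] x)) - (f y - f (T.par^[b] y)) := by rw [e]; ring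
  rw [h3]
  refine (norm_sub_le _ _).trans ?_
  linarith

theorem Lip.comp_bound (h : T.Lip K φ) : ∃ C : ℝ, 0 ≤ C ∧ ∀ (f : V → ℂ) (M : ℝ),
    (∀ v, ‖T.D f v‖ ≤ M) → ∀ v, ‖T.D (f ∘ φ) v‖ ≤ C * M := by
  refine ⟨2 * K + T.dep (φ T.o) + 1, by positivity, fun f M hM v => ?_⟩
  have hM0 : 0 ≤ M := (norm_nonneg _).trans (hM T.o)
  by_cases hv : v = T.o
  · subst hv
    rw [T.D_o]
    have h1 := iter_le f M (T.dep (φ T.o)) (φ T.o) fun t _ => hM _
    rw [T.par_iter_eq_o (le_refl _)] at h1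
    have h2 : ‖f T.o‖ ≤ M := by
      have := hM T.o
      rwa [T.D_o] at this
    have h3 : (f ∘ φ) T.o = (f (φ T.o) - f T.o) + f T.o := by simp
    rw [h3]
    refine (norm_add_le _ _).trans ?_
    have h4 : 0 ≤ 2 * (K : ℝ) * M := by positivity
    nlinarith
  · rw [T.D_of_ne _ hv]
    obtain ⟨a, ha, b, hb, e⟩ := h.anc v hv
    have h1 : ‖f (φ v) - f (φ (T.par v))‖ ≤ (a + b) * M :=
      anc_le e (fun t _ => hM _) (fun t _ => hM _)
    have h2 : ((a : ℝ) + b) * M ≤ (2 * K + T.dep (φ T.o) + 1) * M := by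
      apply mul_le_mul_of_nonneg_right _ hM0
      have ha' : (a : ℝ) ≤ K := by exact_mod_cast ha
      have hb' : (b : ℝ) ≤ K := by exact_mod_cast hb
      have hd : (0 : ℝ) ≤ T.dep (φ T.o) := Nat.cast_nonneg _
      linarith
    exact h1.trans h2

theorem Lip.comp_tendsto (h : T.Lip K φ) {f : V → ℂ} (hf : Tendsto (T.D f) cofinite (𝓝 0)) :
    Tendsto (T.D (f ∘ φ)) cofinite (𝓝 0) := by
  rw [tendsto_cofinite_iff] at hf ⊢
  intro ε hε
  have hK : (0 : ℝ) < 2 * K + 1 := by positivity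
  have hF := hf (ε / (2 * K + 1)) (by positivity)
  obtain ⟨M, hM⟩ := (hF.image T.dep).bddAbove
  have hsmall : ∀ u, M < T.dep u → ‖T.D f u‖ < ε / (2 * K + 1) := by
    intro u hu
    by_contra hcon
    have h1 : T.dep u ≤ M := hM ⟨u, not_lt.1 hcon, rfl⟩
    omega
  have hA : {v | T.dep (φ v) ≤ M + K}.Finite :=
    (T.finite_dep_le (M + K)).preimage h.inj.injOn
  have hB : {v | T.dep (φ (T.par v)) ≤ M + K}.Finite :=
    hA.preimage' fun w _ => T.fin w
  refine ((Set.finite_singleton T.o).union (hA.union hB)).subset ?_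
  intro v hv
  by_contra hcon
  simp only [Set.mem_union, Set.mem_singleton_iff, Set.mem_ofPred_eq, not_or, not_le] at hcon
  obtain ⟨hv0, hv1, hv2⟩ := hcon
  have hv' : ε ≤ ‖T.D (f ∘ φ) v‖ := hv
  rw [T.D_of_ne _ hv0] at hv'
  obtain ⟨a, ha, b, hb, e⟩ := h.anc v hv0
  have h1 : ‖f (φ v) - f (φ (T.par v))‖ ≤ (a + b) * (ε / (2 * K + 1)) := by
    refine anc_le e (fun t ht => ?_) (fun t ht => ?_)
    · have h2 := dep_iter_le (T := T) (φ v) t
      exact (hsmall _ (by omega)).le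
    · have h2 := dep_iter_le (T := T) (φ (T.par v)) t
      exact (hsmall _ (by omega)).le
  have ha' : (a : ℝ) ≤ K := by exact_mod_cast ha
  have hb' : (b : ℝ) ≤ K := by exact_mod_cast hb
  have h2 : ((a : ℝ) + b) * (ε / (2 * K + 1)) ≤ (2 * K) * (ε / (2 * K + 1)) :=
    mul_le_mul_of_nonneg_right (by linarith) (by positivity)
  have h3 : (2 * (K : ℝ)) * (ε / (2 * K + 1)) < ε := by
    rw [mul_div_assoc', div_lt_iff₀ hK]
    nlinarith
  have h4 : ‖(f ∘ φ) v - (f ∘ φ) (T.par v)‖ < ε := lt_of_le_of_lt (h1.trans h2) h3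
  linarith

theorem Lip.isCompositionOperator (h : T.Lip K φ) : IsCompositionOperator T.graph T.o φ := by
  obtain ⟨C, hC, hb⟩ := h.comp_bound
  refine ⟨fun f hf => ?_, C, fun f hf => ?_⟩
  · rw [T.mem_littleLip_iff] at hf ⊢
    exact h.comp_tendsto hf
  · exact T.lipNorm_le (hb f _ (T.norm_D_le_lipNorm hf))

end PTree

end Pool.Agent.H69.LL
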