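import Pool.Agent.H69.LL.Dns
import Pool.Agent.H69.LL.Op
import Pool.Agent.H69.LL.Crit

/-!
# Module Hyper: hypercyclicity of `c C_φ` from the behaviour of the indicators

`exists_B`: `B F = c • D ((S F) ∘ φ)`, as an element of `C₀` (`h.comp_tendsto`, `D_S`), linear (`S` is linear because `S F = S F' ↔ F = F'`
and `D`, `∘ φ` are linear: show `S (F + G) = S F + S G` directly from the sum), bounded by `‖c‖ C` (`h.comp_bound`, `LinearMap.mkContinuous`).
`B (D f) = D (c • (f ∘ φ))` because `S (D f) = f`. The power formula: induction on `n`: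
`B^n F = D (fun w => c^n * f (φ^[n] w))` if `F = D f`.
`hyper`: `Q₁ = {Bw}` and `Q₂ = {Fw}` are closed subspaces (`Bw_submodule`, `Fw_submodule`) of `C₀(V, ℂ)`. For `v ∈ Good`, `yf (chi v)` is in both, by
`hB`, `hF` (use `ε/2`, `F1 = yf f`, and `B^n (yf f) = D (c^n • (f ∘ φ^[n]))`). For an arbitrary `v` take `j` with `φ^[j] v ∈ Good`:
`B^j (yf (chi (φ^[j] v))) = c^j • yf (chi v)` (`chi (φ^[j] v) ∘ φ^[j] = chi v`, `φ` injective) is in `Qᵢ` by `Bw_inv`, `Fw_inv`;
divide by `c^j ≠ 0`. So `Qᵢ = ⊤` (`eq_top_of_chi`), `crit` gives `F` with dense orbit, and `S F` is hypercyclic: as in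
`isHypercyclic_phi` at the end of `Pool/Agent/H70/CombMain.lean`.
-/

set_option autoImplicit false

namespace Pool.Agent.H69.LL

open Pool.Agent.H70.LittleLip Filter Topology TopologicalSpace
open scoped ZeroAtInfty

namespace PTree

variable {V : Type} [DecidableEq V] [TopologicalSpace V] [DiscreteTopology V] {T : PTree V} {K : ℕ}
  {φ : V → V}

omit [DecidableEq V] [TopologicalSpace V] [DiscreteTopology V] in
private lemma S_add' (F G : V → ℂ) : T.S (F + G) = T.S F + T.S G := by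
  funext v
  simp only [S, Pi.add_apply, Finset.sum_add_distrib]

omit [DecidableEq V] [TopologicalSpace V] [DiscreteTopology V] in
private lemma S_smul' (a : ℂ) (F : V → ℂ) : T.S (a • F) = a • T.S F := by
  funext v
  simp only [S, Pi.smul_apply, smul_eq_mul, Finset.mul_sum]

omit [DecidableEq V] [TopologicalSpace V] [DiscreteTopology V] in
private lemma tend_smul {F : V → ℂ} (c : ℂ) (hF : Tendsto F cofinite (𝓝 0)) :
    Tendsto (c • F) cofinite (𝓝 0) := by
  have := hF.const_mul c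
  rw [mul_zero] at this
  exact this

theorem exists_B (h : T.Lip K φ) (c : ℂ) : ∃ B : C₀(V, ℂ) →L[ℂ] C₀(V, ℂ),
    ∀ (n : ℕ) (F : C₀(V, ℂ)) (f : V → ℂ), (F : V → ℂ) = T.D f →
      ∀ v, ((B ^ n) F : C₀(V, ℂ)) v = T.D (fun w => c ^ n * f (φ^[n] w)) v := by
  obtain ⟨C, hC, hb⟩ := h.comp_bound
  have ht : ∀ F : C₀(V, ℂ), Tendsto (c • T.D (T.S F ∘ φ)) cofinite (𝓝 0) := fun F =>
    tend_smul c (h.comp_tendsto (by rw [T.D_S]; exact Y_tendsto F))
  let L : C₀(V, ℂ) →ₗ[ℂ] C₀(V, ℂ) :=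
    { toFun := fun F => mkY (c • T.D (T.S F ∘ φ)) (ht F)
      map_add' := fun F G => by
        ext v
        have e2 : (T.S F + T.S G) ∘ φ = T.S F ∘ φ + T.S G ∘ φ := rfl
        simp only [mkY_apply, ZeroAtInftyContinuousMap.coe_add, S_add', Pi.add_apply, Pi.smul_apply,
          smul_eq_mul, e2, D_add]
        ring
      map_smul' := fun a F => by
        ext v
        have e2 : (a • T.S F) ∘ φ = a • (T.S F ∘ φ) := rfl
        simp only [mkY_apply, ZeroAtInftyContinuousMap.coe_smul, S_smul', Pi.smul_apply, smul_eq_mul,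
          e2, D_smul, RingHom.id_apply]
        ring }
  let B : C₀(V, ℂ) →L[ℂ] C₀(V, ℂ) := L.mkContinuous (‖c‖ * C) fun F => by
    refine norm_le_of _ (by positivity) fun v => ?_
    change ‖(c • T.D (T.S F ∘ φ)) v‖ ≤ _
    rw [Pi.smul_apply, norm_smul, mul_assoc]
    refine mul_le_mul_of_nonneg_left ?_ (norm_nonneg c)
    refine hb (T.S F) ‖F‖ (fun w => ?_) v
    rw [T.D_S]
    exact norm_apply_le F w
  have hB : ∀ (F : C₀(V, ℂ)) (f : V → ℂ), (F : V → ℂ) = T.D f →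
      ((B F : C₀(V, ℂ)) : V → ℂ) = T.D (c • (f ∘ φ)) := fun F f hf => by
    have e : T.S F = f := by rw [hf, T.S_D]
    change c • T.D (T.S F ∘ φ) = _
    rw [e, D_smul]
  refine ⟨B, fun n => ?_⟩
  induction n with
  | zero =>
    intro F f hf v
    simp only [pow_zero, one_mul, Function.iterate_zero, id_eq]
    exact congrFun hf v
  | succ n ih =>
    intro F f hf v
    have e : (B ^ (n + 1)) F = (B ^ n) (B F) := by rw [pow_succ]; rfl
    rw [e, ih (B F) (c • (f ∘ φ)) (hB F f hf) v]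
    congr 1
    funext w
    rw [Pi.smul_apply, Function.comp_apply, smul_eq_mul, Function.iterate_succ_apply', pow_succ,
      mul_assoc]

theorem hyper (h : T.Lip K φ) {c : ℂ} (hc : c ≠ 0) (n : ℕ → ℕ) (Good : Set V)
    (hGood : ∀ v, ∃ j, φ^[j] v ∈ Good)
    (hF : ∀ v ∈ Good, ∀ ε : ℝ, 0 < ε → ∀ᶠ k : ℕ in atTop, ∃ u : V → ℂ, FS u ∧
      (∀ x, ‖T.D u x‖ ≤ ε) ∧ ∀ x, ‖T.D ((fun w => c ^ n k * u (φ^[n k] w)) - chi v) x‖ ≤ ε)
    (hB : ∀ v ∈ Good, ∀ ε : ℝ, 0 < ε → ∀ᶠ k : ℕ in atTop, ∃ f : V → ℂ, FS f ∧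
      (∀ x, ‖T.D (f - chi v) x‖ ≤ ε) ∧ ∀ x, ‖T.D (fun w => c ^ n k * f (φ^[n k] w)) x‖ ≤ ε) :
    IsHypercyclic T.graph T.o (fun f => c • (f ∘ φ)) := by
  obtain ⟨B, hBn⟩ := exists_B h c
  obtain ⟨Q₁, hQ₁, hQ₁'⟩ := Bw_submodule B n
  obtain ⟨Q₂, hQ₂, hQ₂'⟩ := Fw_submodule B n
  have hy : ∀ (f : V → ℂ) (hf : FS f), ((T.yf f hf : C₀(V, ℂ)) : V → ℂ) = T.D f := fun f hf => rfl
  have g1 : ∀ v ∈ Good, Bw B n (T.yf (chi v) (chi_fs v)) := by
    intro v hv ε hε
    filter_upwards [hB v hv (ε / 2) (by linarith)] with k hk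
    obtain ⟨f, hf, h1, h2⟩ := hk
    refine ⟨T.yf f hf, lt_of_le_of_lt (norm_le_of _ (by linarith : (0 : ℝ) ≤ ε / 2) fun x => ?_) (by linarith),
      lt_of_le_of_lt (norm_le_of _ (by linarith : (0 : ℝ) ≤ ε / 2) fun x => ?_) (by linarith)⟩
    · have := h1 x
      rw [D_sub] at this
      exact this
    · rw [hBn (n k) _ f (hy f hf) x]
      exact h2 x
  have g2 : ∀ v ∈ Good, Fw B n (T.yf (chi v) (chi_fs v)) := by
    intro v hv ε hε
    filter_upwards [hF v hv (ε / 2) (by linarith)] with k hk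
    obtain ⟨u, hu, h1, h2⟩ := hk
    refine ⟨T.yf u hu, lt_of_le_of_lt (norm_le_of _ (by linarith : (0 : ℝ) ≤ ε / 2) fun x => ?_) (by linarith),
      lt_of_le_of_lt (norm_le_of _ (by linarith : (0 : ℝ) ≤ ε / 2) fun x => ?_) (by linarith)⟩
    · exact h1 x
    · have := h2 x
      rw [D_sub, Pi.sub_apply, ← hBn (n k) _ u (hy u hu) x] at this
      exact this
  have key : ∀ (v : V) (j : ℕ), (B ^ j) (T.yf (chi (φ^[j] v)) (chi_fs _)) =
      c ^ j • T.yf (chi v) (chi_fs v) := by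
    intro v j
    ext x
    rw [hBn j _ _ (hy _ _) x, ZeroAtInftyContinuousMap.coe_smul, Pi.smul_apply, yf_apply]
    have e : (fun w => c ^ j * chi (φ^[j] v) (φ^[j] w)) = c ^ j • chi v := by
      funext w
      rw [Pi.smul_apply, smul_eq_mul]
      congr 1
      unfold chi
      by_cases hw : w = v
      · subst hw
        rw [Pi.single_eq_same, Pi.single_eq_same]
      · rw [Pi.single_eq_of_ne hw, Pi.single_eq_of_ne fun h' => hw (h.inj.iterate j h')]
    rw [e, D_smul, Pi.smul_apply]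
  have inv1 : ∀ (j : ℕ) (F : C₀(V, ℂ)), Bw B n F → Bw B n ((B ^ j) F) := by
    intro j
    induction j with
    | zero => intro F hF'; simpa using hF'
    | succ j ih =>
      intro F hF'
      have e : (B ^ (j + 1)) F = (B ^ j) (B F) := by rw [pow_succ]; rfl
      rw [e]
      exact ih _ (Bw_inv B n hF')
  have inv2 : ∀ (j : ℕ) (F : C₀(V, ℂ)), Fw B n F → Fw B n ((B ^ j) F) := by
    intro j
    induction j with
    | zero => intro F hF'; simpa using hF'
    | succ j ih =>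
      intro F hF'
      have e : (B ^ (j + 1)) F = (B ^ j) (B F) := by rw [pow_succ]; rfl
      rw [e]
      exact ih _ (Fw_inv B n hF')
  have m1 : ∀ v, T.yf (chi v) (chi_fs v) ∈ Q₁ := by
    intro v
    obtain ⟨j, hj⟩ := hGood v
    have h1 : c ^ j • T.yf (chi v) (chi_fs v) ∈ Q₁ := by
      rw [← key v j, hQ₁']
      exact inv1 j _ (g1 _ hj)
    exact (Q₁.smul_mem_iff (pow_ne_zero j hc)).1 h1
  have m2 : ∀ v, T.yf (chi v) (chi_fs v) ∈ Q₂ := by
    intro v
    obtain ⟨j, hj⟩ := hGood v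
    have h1 : c ^ j • T.yf (chi v) (chi_fs v) ∈ Q₂ := by
      rw [← key v j, hQ₂']
      exact inv2 j _ (g2 _ hj)
    exact (Q₂.smul_mem_iff (pow_ne_zero j hc)).1 h1
  have t1 := T.eq_top_of_chi Q₁ hQ₁ m1
  have t2 := T.eq_top_of_chi Q₂ hQ₂ m2
  have hsep : SeparableSpace C₀(V, ℂ) := by
    first
    | exact separable T
    | exact separable
  obtain ⟨F, hFd⟩ := crit B n (fun F => (hQ₁' F).1 (by rw [t1]; trivial))
    (fun G => (hQ₂' G).1 (by rw [t2]; trivial))
  refine ⟨T.S F, ?_, ?_⟩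
  · rw [T.mem_littleLip_iff, T.D_S]
    exact Y_tendsto F
  · intro g hg ε hε
    obtain ⟨m, hm⟩ := hFd (mkY (T.D g) ((T.mem_littleLip_iff g).1 hg)) ε hε
    refine ⟨m, lt_of_le_of_lt (T.lipNorm_le fun v => ?_) hm⟩
    have hit : ∀ (m : ℕ) (f : V → ℂ), (fun f : V → ℂ => c • (f ∘ φ))^[m] f =
        fun w => c ^ m * f (φ^[m] w) := by
      intro m
      induction m with
      | zero => intro f; funext w; simp
      | succ m ih =>
        intro f
        rw [Function.iterate_succ_apply, ih]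
        funext w
        rw [Pi.smul_apply, Function.comp_apply, smul_eq_mul, Function.iterate_succ_apply', pow_succ,
          mul_assoc]
    have e : T.D ((fun f : V → ℂ => c • (f ∘ φ))^[m] (T.S F) - g) v =
        ((B ^ m) F - mkY (T.D g) ((T.mem_littleLip_iff g).1 hg) : C₀(V, ℂ)) v := by
      rw [D_sub, ZeroAtInftyContinuousMap.sub_apply, mkY_apply, Pi.sub_apply,
        hBn m F (T.S F) (T.D_S F).symm v, hit]
    rw [e]
    exact norm_apply_le _ v

end PTree

end Pool.Agent.H69.LL
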