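import Pool.Agent.H70.CombDefs

/-!
# Module Path: permutations of the comb reached by moves of all points to equal or adjacent positions

`Nr x y`: equal or adjacent in the comb; symmetric. Let `G` be the set of the permutations `R` for which a path `γ` exists as in
`exists_path`. `G` is closed under products: if `γ` is a path to `A` and `δ` a path to `B` (constant from `l`), then `j ↦ δ j` for
`j ≤ l`, `j ↦ γ (j - l) * B` for `j > l` is a path to `A * B`. Inverses: `j ↦ γ (l - j) * A⁻¹` is a path from `γ l * A⁻¹ = 1` to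
`A⁻¹`. `G` contains `swap x (par x)` (a path with one step: `Nr w (swap x (par x) w)`), hence all `swap x y`: every `x` is
connected to `(0,0)` by parents, `swap x (0,0) = swap x (par x) * swap (par x) (0,0) * swap x (par x)` for `x ≠ (0,0)`,
`par x ≠ (0,0)`, and `swap x y = swap x o * swap y o * swap x o` for `x, y ≠ o` different, `o = (0,0)`. So `G` is a subgroup which
contains all transpositions; `Equiv.Perm.mem_closure_isSwap'` (support finite).
-/

set_option autoImplicit false

namespace Pool.Agent.H69.LL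

open Pool.Agent.H70.LittleLip

/-- equal or adjacent in the comb -/
def Nr (x y : ℕ × ℕ) : Prop := x = y ∨ par x = y ∨ par y = x

private def pG : Subgroup (Equiv.Perm (ℕ × ℕ)) where
  carrier := {R | ∃ (γ : ℕ → Equiv.Perm (ℕ × ℕ)) (l : ℕ), γ 0 = 1 ∧ (∀ j, l ≤ j → γ j = R) ∧
      ∀ j w, Nr (γ j w) (γ (j + 1) w)}
  one_mem' := ⟨fun _ => 1, 0, rfl, fun _ _ => rfl, fun _ _ => Or.inl rfl⟩
  mul_mem' := by
    rintro A B ⟨γ, l, hγ0, hγl, hγ⟩ ⟨δ, k, hδ0, hδk, hδ⟩
    refine ⟨fun j => γ (j - k) * δ j, l + k, ?_, ?_, ?_⟩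
    · show γ (0 - k) * δ 0 = 1
      rw [Nat.zero_sub, hγ0, hδ0, mul_one]
    · intro j hj
      show γ (j - k) * δ j = A * B
      rw [hγl _ (by omega), hδk _ (by omega)]
    · intro j w
      show Nr (γ (j - k) (δ j w)) (γ (j + 1 - k) (δ (j + 1) w))
      by_cases h : j < k
      · have e1 : j - k = 0 := by omega
        have e2 : j + 1 - k = 0 := by omega
        rw [e1, e2, hγ0]
        exact hδ j w
      · have e2 : j + 1 - k = (j - k) + 1 := by omega
        rw [e2, hδk j (by omega), hδk (j + 1) (by omega)]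
        exact hγ _ _
  inv_mem' := by
    rintro A ⟨γ, l, hγ0, hγl, hγ⟩
    refine ⟨fun j => γ (l - j) * A⁻¹, l, ?_, ?_, ?_⟩
    · show γ (l - 0) * A⁻¹ = 1
      rw [Nat.sub_zero, hγl l le_rfl, mul_inv_cancel]
    · intro j hj
      show γ (l - j) * A⁻¹ = A⁻¹
      rw [Nat.sub_eq_zero_of_le hj, hγ0, one_mul]
    · intro j w
      show Nr (γ (l - j) (A⁻¹ w)) (γ (l - (j + 1)) (A⁻¹ w))
      by_cases h : j < l
      · have e1 : l - j = (l - (j + 1)) + 1 := by omega
        rw [e1]
        rcases hγ (l - (j + 1)) (A⁻¹ w) with h1 | h1 | h1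
        · exact Or.inl h1.symm
        · exact Or.inr (Or.inr h1)
        · exact Or.inr (Or.inl h1)
      · have e1 : l - j = 0 := by omega
        have e2 : l - (j + 1) = 0 := by omega
        rw [e1, e2]
        exact Or.inl rfl

private theorem pG_par (x : ℕ × ℕ) : Equiv.swap x (par x) ∈ pG := by
  refine ⟨fun j => if j = 0 then 1 else Equiv.swap x (par x), 1, if_pos rfl, ?_, ?_⟩
  · intro j hj
    exact if_neg (by omega)
  · intro j w
    by_cases h : j = 0
    · subst h
      show Nr ((1 : Equiv.Perm (ℕ × ℕ)) w) (Equiv.swap x (par x) w)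
      rw [Equiv.Perm.one_apply]
      by_cases h1 : w = x
      · rw [h1, Equiv.swap_apply_left]
        exact Or.inr (Or.inl rfl)
      · by_cases h2 : w = par x
        · rw [h2, Equiv.swap_apply_right]
          exact Or.inr (Or.inr rfl)
        · rw [Equiv.swap_apply_of_ne_of_ne h1 h2]
          exact Or.inl rfl
    · show Nr ((if j = 0 then (1 : Equiv.Perm (ℕ × ℕ)) else Equiv.swap x (par x)) w) _
      rw [if_neg h]
      exact Or.inl rfl

private theorem pG_root (n : ℕ) : ∀ x : ℕ × ℕ, depth x = n → Equiv.swap x (0, 0) ∈ pG := by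
  induction n using Nat.strong_induction_on with
  | _ n ih =>
    intro x hx
    by_cases h : x = (0, 0)
    · rw [h, Equiv.swap_self]
      exact pG.one_mem
    · have h1 := depth_par h
      exact SubmonoidClass.swap_mem_trans pG (pG_par x) (ih _ (by omega) (par x) rfl)

private theorem pG_swap (x y : ℕ × ℕ) : Equiv.swap x y ∈ pG := by
  have h1 := pG_root _ x rfl
  have h2 := pG_root _ y rfl
  rw [Equiv.swap_comm] at h2
  exact SubmonoidClass.swap_mem_trans pG h1 h2

theorem exists_path (R : Equiv.Perm (ℕ × ℕ)) (hR : {w | R w ≠ w}.Finite) :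
    ∃ (γ : ℕ → Equiv.Perm (ℕ × ℕ)) (l : ℕ), γ 0 = 1 ∧ (∀ j, l ≤ j → γ j = R) ∧
      ∀ j w, Nr (γ j w) (γ (j + 1) w) := by
  have h1 : R ∈ Subgroup.closure {σ : Equiv.Perm (ℕ × ℕ) | σ.IsSwap} := by
    rw [mem_closure_isSwap']
    exact hR
  have h2 : Subgroup.closure {σ : Equiv.Perm (ℕ × ℕ) | σ.IsSwap} ≤ pG := by
    rw [Subgroup.closure_le]
    rintro σ ⟨x, y, -, rfl⟩
    exact pG_swap x y
  exact h2 h1

end Pool.Agent.H69.LL
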