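import Pool.Agent.H69.LL.Map
import Pool.Agent.H69.LL.Op
import Pool.Agent.H69.LL.Path

/-!
# Module LipM: the map is Lipschitz

(1) `phi`: for `u ≠ (0,0)`, `phi u` and `phi (par u)` have a common ancestor in the comb at most `2` steps up (`par^[a] = par^[b]`,
`a, b ≤ 2`): `(0,x+1)`: `(0,2x+3)`, `(0,2x+1)`; `(1,x+1)`: `(0,2x+2)`, `(0,2x)`; `(1,0)`: `(0,0)`, `(0,1)`; `(i+2,x+1)`, `(i+2,0)`:
adjacent or (`(2,0)`) `(1,0)`, `(0,0)` adjacent.
(2) `phi^[q]`: the relation `∃ a ≤ K, b ≤ K, par^[a] x = par^[b] y` is transitive with sum of the constants, so along the parents of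
`x` and `y` up to the common ancestor: `x, y` related with `K` gives `phi x, phi y` related with `4 K` (at most `2K` steps of constant
`2`); by induction `phi^[q] u`, `phi^[q] (par u)` are related with some `K_q`.
(3) on the levels: `par3` and `par` agree away from `(0,0)`; `par^[a] x = par^[b] y` in the comb gives
`par3^[a'] (m, x) = par3^[b'] (m, y)` with `a' ≤ a`, `b' ≤ b` (if the orbit reaches `(0,0)` stop there; if both do, use the first
times). A permutation part: `Nr (P j w) (P (j+1) w)` for every `w`, so with `w = (P (j+1)).symm u` the point `P j w` is equal or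
adjacent to `u`; the same for `par u`; so the images of `u`, `par u` are joined by at most three edges: constant `3`.
(4) line edges: `v = (m, (0,0))` and its parent `(m ∓ 1, (0,0))`: the images are on the levels `m + 1` and `m + 1 ∓ 1` (neighbours), at
depth at most `depth (phi^[q] (0,0)) + 1` in their combs, so the common ancestor is at most `depth (phi^[q] (0,0)) + 2` steps up.
-/

set_option autoImplicit false

namespace Pool.Agent.H69.LL

open Pool.Agent.H70.LittleLip

/-- common ancestors in the comb -/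
private def An (K : ℕ) (x y : ℕ × ℕ) : Prop := ∃ a ≤ K, ∃ b ≤ K, par^[a] x = par^[b] y

private lemma An_trans {K L : ℕ} {x y z : ℕ × ℕ} (h₁ : An K x y) (h₂ : An L y z) :
    An (K + L) x z := by
  obtain ⟨a₁, ha₁, a₂, ha₂, e₁⟩ := h₁
  obtain ⟨b₁, hb₁, b₂, hb₂, e₂⟩ := h₂
  rcases le_total a₂ b₁ with h | h
  · obtain ⟨t, rfl⟩ := Nat.exists_eq_add_of_le h
    refine ⟨t + a₁, by omega, b₂, by omega, ?_⟩
    rw [Function.iterate_add_apply, e₁, ← Function.iterate_add_apply, add_comm t a₂, e₂]
  · obtain ⟨t, rfl⟩ := Nat.exists_eq_add_of_le h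
    refine ⟨a₁, by omega, t + b₂, by omega, ?_⟩
    rw [Function.iterate_add_apply, ← e₂, ← Function.iterate_add_apply, add_comm t b₁, e₁]

private lemma An_symm {K : ℕ} {x y : ℕ × ℕ} (h : An K x y) : An K y x := by
  obtain ⟨a, ha, b, hb, e⟩ := h
  exact ⟨b, hb, a, ha, e.symm⟩

private lemma An_mono {K L : ℕ} {x y : ℕ × ℕ} (h : An K x y) (hKL : K ≤ L) : An L x y := by
  obtain ⟨a, ha, b, hb, e⟩ := h
  exact ⟨a, ha.trans hKL, b, hb.trans hKL, e⟩

private lemma An_refl (x : ℕ × ℕ) : An 0 x x := ⟨0, le_rfl, 0, le_rfl, rfl⟩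

private lemma An_nr {x y : ℕ × ℕ} (h : Nr x y) : An 1 x y := by
  rcases h with h | h | h
  · exact ⟨0, by omega, 0, by omega, h⟩
  · exact ⟨1, le_rfl, 0, by omega, h⟩
  · exact ⟨0, by omega, 1, le_rfl, h.symm⟩

private lemma phi_step (u : ℕ × ℕ) : An 2 (phi u) (phi (par u)) := by
  obtain ⟨i, x⟩ := u
  rcases i with _ | _ | i
  · rcases x with _ | x
    · exact An_mono (An_refl _) (by omega)
    · refine ⟨2, le_rfl, 0, by omega, ?_⟩
      have e1 : 2 * (x + 1) + 1 = 2 * x + 1 + 1 + 1 := by ring
      simp only [phi_zero, par_succ, e1, Function.iterate_succ_apply, Function.iterate_zero, id_eq]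
  · rcases x with _ | x
    · refine ⟨0, by omega, 1, by omega, ?_⟩
      simp [phi_one, phi_zero]
    · refine ⟨2, le_rfl, 0, by omega, ?_⟩
      have e1 : 2 * (x + 1) = 2 * x + 1 + 1 := by ring
      simp only [phi_one, par_succ, e1, Function.iterate_succ_apply, Function.iterate_zero, id_eq,
        Nat.zero_add]
  · rcases x with _ | x
    · refine ⟨1, by omega, 0, by omega, ?_⟩
      rcases i with _ | i
      · simp [phi_add_two, phi_one]
      · simp [phi_add_two]
    · refine ⟨1, by omega, 0, by omega, ?_⟩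
      simp [phi_add_two]

private lemma phi_iter_step (a : ℕ) (x : ℕ × ℕ) : An (2 * a) (phi x) (phi (par^[a] x)) := by
  induction a with
  | zero => exact An_refl _
  | succ a ih =>
    rw [Function.iterate_succ_apply']
    exact An_mono (An_trans ih (phi_step _)) (by omega)

private lemma phi_An {K : ℕ} {x y : ℕ × ℕ} (h : An K x y) : An (4 * K) (phi x) (phi y) := by
  obtain ⟨a, ha, b, hb, e⟩ := h
  have h1 := phi_iter_step a x
  have h2 := phi_iter_step b y
  rw [e] at h1
  exact An_mono (An_trans h1 (An_symm h2)) (by omega)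

private lemma phi_iter_An (q : ℕ) : ∃ K, ∀ u, An K (phi^[q] u) (phi^[q] (par u)) := by
  induction q with
  | zero => exact ⟨1, fun u => ⟨1, le_rfl, 0, by omega, rfl⟩⟩
  | succ q ih =>
    obtain ⟨K, hK⟩ := ih
    refine ⟨4 * K, fun u => ?_⟩
    rw [Function.iterate_succ_apply', Function.iterate_succ_apply']
    exact phi_An (hK u)

private lemma par_iter_depth (x : ℕ × ℕ) : par^[depth x] x = (0, 0) := by
  induction' h : depth x with n ih generalizing x
  · obtain ⟨i, y⟩ := x
    simp only [depth] at h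
    have h1 : i = 0 := by omega
    have h2 : y = 0 := by omega
    subst h1; subst h2
    rfl
  · have hx : x ≠ (0, 0) := by
      rintro rfl
      simp [depth] at h
    rw [Function.iterate_succ_apply]
    have h1 := depth_par hx
    exact ih (par x) (by omega)

private lemma par_iter_zero (k : ℕ) : par^[k] (0, 0) = (0, 0) := by
  induction k with
  | zero => rfl
  | succ k ih => rw [Function.iterate_succ_apply, par_root, ih]

private lemma par3_iter (m : ℤ) (a : ℕ) (x : ℕ × ℕ) (ha : a ≤ depth x) :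
    par3^[a] (m, x) = (m, par^[a] x) := by
  induction a generalizing x with
  | zero => rfl
  | succ a ih =>
    have hx : x ≠ (0, 0) := by
      rintro rfl
      simp [depth] at ha
    rw [Function.iterate_succ_apply, Function.iterate_succ_apply]
    have h1 : par3 (m, x) = (m, par x) := by
      simp only [par3, if_neg hx]
    rw [h1]
    have h2 := depth_par hx
    exact ih (par x) (by omega)

private lemma par_iter_min (a : ℕ) (x : ℕ × ℕ) : par^[min a (depth x)] x = par^[a] x := by
  rcases le_total a (depth x) with h | h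
  · rw [min_eq_left h]
  · rw [min_eq_right h, par_iter_depth]
    obtain ⟨t, rfl⟩ := Nat.exists_eq_add_of_le h
    rw [add_comm, Function.iterate_add_apply, par_iter_depth, par_iter_zero]

private lemma An_level {K : ℕ} {x y : ℕ × ℕ} (m : ℤ) (h : An K x y) : tr.Anc K (m, x) (m, y) := by
  obtain ⟨a, ha, b, hb, e⟩ := h
  refine ⟨min a (depth x), (min_le_left _ _).trans ha, min b (depth y),
    (min_le_left _ _).trans hb, ?_⟩
  show par3^[min a (depth x)] (m, x) = par3^[min b (depth y)] (m, y)
  rw [par3_iter m _ x (min_le_right _ _), par3_iter m _ y (min_le_right _ _), par_iter_min,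
    par_iter_min, e]

private lemma Anc_mono {K L : ℕ} {x y : V3} (h : tr.Anc K x y) (hKL : K ≤ L) : tr.Anc L x y := by
  obtain ⟨a, ha, b, hb, e⟩ := h
  exact ⟨a, ha.trans hKL, b, hb.trans hKL, e⟩

/-- points on neighbouring levels, the first one farther from the root -/
private lemma Anc_line {m m' : ℤ} (hm : par3 (m, (0, 0)) = (m', (0, 0))) (x y : ℕ × ℕ) {K : ℕ}
    (hx : depth x ≤ K) (hy : depth y ≤ K) : tr.Anc (K + 1) (m, x) (m', y) := by
  refine ⟨depth x + 1, by omega, depth y, by omega, ?_⟩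
  show par3^[depth x + 1] (m, x) = par3^[depth y] (m', y)
  rw [Function.iterate_succ_apply', par3_iter m _ x le_rfl, par3_iter m' _ y le_rfl,
    par_iter_depth, par_iter_depth, hm]

private lemma Anc_symm {K : ℕ} {x y : V3} (h : tr.Anc K x y) : tr.Anc K y x := by
  obtain ⟨a, ha, b, hb, e⟩ := h
  exact ⟨b, hb, a, ha, e.symm⟩

private lemma depth_of_nr {x : ℕ × ℕ} (h : Nr x (0, 0)) : depth x ≤ 1 := by
  rcases h with h | h | h
  · rw [h]; simp [depth]
  · by_cases hx : x = (0, 0)
    · rw [hx]; simp [depth]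
    · have h1 := depth_par hx
      rw [h] at h1
      simp only [depth] at h1 ⊢
      omega
  · rw [← h]; simp [depth]

private lemma nr_perm {P : ℕ → Equiv.Perm (ℕ × ℕ)} (hP : ∀ j w, Nr (P j w) (P (j + 1) w)) (j : ℕ)
    (u : ℕ × ℕ) : Nr (P j ((P (j + 1)).symm u)) u := by
  have h := hP j ((P (j + 1)).symm u)
  rwa [Equiv.apply_symm_apply] at h

private lemma par3_pos {m : ℤ} (hm : 0 < m) : par3 (m, (0, 0)) = (m - 1, (0, 0)) := by
  simp [par3, hm]

private lemma par3_neg {m : ℤ} (hm : m < 0) : par3 (m, (0, 0)) = (m + 1, (0, 0)) := by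
  have h : ¬ 0 < m := by omega
  simp [par3, hm, h]

theorem Phi_lip (q : ℕ) {P : ℕ → Equiv.Perm (ℕ × ℕ)} (hP : ∀ j w, Nr (P j w) (P (j + 1) w)) :
    ∃ K, tr.Lip K (Phi q P) := by
  obtain ⟨K, hK⟩ := phi_iter_An q
  set δ : ℕ := depth (phi^[q] (0, 0)) with hδ
  refine ⟨K + δ + 3, (Phi_bij q P).injective, ?_⟩
  rintro ⟨m, u⟩ hv
  show tr.Anc (K + δ + 3) (Phi q P (m, u)) (Phi q P (par3 (m, u)))
  by_cases hu : u = (0, 0)
  · subst hu
    have hm0 : m ≠ 0 := by
      rintro rfl
      exact hv rfl
    cases m with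
    | ofNat n =>
      obtain ⟨k, rfl⟩ : ∃ k, n = k + 1 := ⟨n - 1, by
        have : n ≠ 0 := by
          rintro rfl
          exact hm0 rfl
        omega⟩
      have hpos : (0 : ℤ) < Int.ofNat (k + 1) := by
        simp only [Int.ofNat_eq_natCast]
        omega
      have e1 : par3 (Int.ofNat (k + 1), (0, 0)) = (Int.ofNat k, (0, 0)) := by
        rw [par3_pos hpos]
        congr 1
        simp
      rw [e1]
      show tr.Anc (K + δ + 3) (((k + 1 : ℕ) : ℤ) + 1, phi^[q] (0, 0)) ((k : ℤ) + 1, phi^[q] (0, 0))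
      have e2 : par3 (((k + 1 : ℕ) : ℤ) + 1, (0, 0)) = ((k : ℤ) + 1, (0, 0)) := by
        rw [par3_pos (by positivity)]
        congr 1
        push_cast
        ring
      exact Anc_mono (Anc_line e2 _ _ hδ.ge hδ.ge) (by omega)
    | negSucc j =>
      have hneg : Int.negSucc j < 0 := Int.negSucc_lt_zero j
      have e1 : par3 (Int.negSucc j, (0, 0)) = (-(j : ℤ), (0, 0)) := by
        rw [par3_neg hneg]
        congr 1
        rw [Int.negSucc_eq]
        ring
      rw [e1]
      have hd1 : depth (P j ((P (j + 1)).symm (0, 0))) ≤ 1 := depth_of_nr (nr_perm hP j (0, 0))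
      rcases j with _ | i
      · show tr.Anc (K + δ + 3) (-((0 : ℕ) : ℤ), P 0 ((P (0 + 1)).symm (0, 0)))
          (Phi q P (-((0 : ℕ) : ℤ), (0, 0)))
        have e3 : Phi q P (-((0 : ℕ) : ℤ), (0, 0)) = (1, phi^[q] (0, 0)) := by
          have e4 : (-((0 : ℕ) : ℤ), ((0 : ℕ), (0 : ℕ))) = (((0 : ℕ) : ℤ), (0, 0)) := by simp
          rw [e4]
          have h := Phi_pos (q := q) (P := P) 1 0 (0, 0)
          rw [Function.iterate_one, mul_one] at h
          rw [h]
          rfl
        rw [e3]
        have e5 : par3 ((1 : ℤ), (0, 0)) = (-((0 : ℕ) : ℤ), (0, 0)) := by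
          rw [par3_pos one_pos]
          simp
        exact Anc_mono (Anc_symm (Anc_line e5 (phi^[q] (0, 0)) _ (K := δ + 1) (by omega)
          (by omega))) (by omega)
      · have e3 : (-((i + 1 : ℕ) : ℤ)) = Int.negSucc i := by
          rw [Int.negSucc_eq]
          push_cast
          ring
        show tr.Anc (K + δ + 3) (-((i + 1 : ℕ) : ℤ), P (i + 1) ((P (i + 1 + 1)).symm (0, 0)))
          (Phi q P (-((i + 1 : ℕ) : ℤ), (0, 0)))
        have e6 : Phi q P (-((i + 1 : ℕ) : ℤ), (0, 0)) =
            (-(i : ℤ), P i ((P (i + 1)).symm (0, 0))) := by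
          rw [e3]
          rfl
        rw [e6]
        have hd2 : depth (P i ((P (i + 1)).symm (0, 0))) ≤ 1 := depth_of_nr (nr_perm hP i (0, 0))
        have e5 : par3 (-((i + 1 : ℕ) : ℤ), (0, 0)) = (-(i : ℤ), (0, 0)) := by
          rw [par3_neg (by push_cast; omega)]
          congr 1
          push_cast
          ring
        exact Anc_mono (Anc_line e5 _ _ (K := 1) hd1 hd2) (by omega)
  · have e1 : par3 (m, u) = (m, par u) := by
      simp only [par3, if_neg hu]
    rw [e1]
    cases m with
    | ofNat n =>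
      show tr.Anc (K + δ + 3) ((n : ℤ) + 1, phi^[q] u) ((n : ℤ) + 1, phi^[q] (par u))
      exact Anc_mono (An_level _ (hK u)) (by omega)
    | negSucc j =>
      show tr.Anc (K + δ + 3) (-(j : ℤ), P j ((P (j + 1)).symm u))
        (-(j : ℤ), P j ((P (j + 1)).symm (par u)))
      have h1 := An_nr (nr_perm hP j u)
      have h2 := An_nr (nr_perm hP j (par u))
      have h3 : An 1 u (par u) := ⟨1, le_rfl, 0, by omega, rfl⟩
      have h4 := An_trans (An_trans h1 h3) (An_symm h2)
      exact Anc_mono (An_level _ h4) (by omega)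

end Pool.Agent.H69.LL
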