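import Pool.Agent.H69.LL.Path

/-!
# Module Walk: one infinite path through all the permutations `R K`, with long stays

Choose `γ K`, `l K` from `exists_path (R K)`. Block `K` has the times `j < len K`, `len K = 2 * (l K + K) + 1`, at the time `j` the
permutation is `γ K (min j (2 * (l K + K) - j))`; it is `1` at the first and the last time of the block, and `R K` for
`l K + K ≤ j ≤ l K + 2 K`... (for `j` with `l K ≤ j` and `l K ≤ 2 (l K + K) - j`, that is `l K ≤ j ≤ l K + 2 K`).
State machine: `nxt (K, j) = if j + 1 < len K then (K, j+1) else (K+1, 0)`, `st m = nxt^[m] (0,0)`,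
`P m = γ (st m).1 (min (st m).2 (2 * (l (st m).1 + (st m).1) - (st m).2))`. By induction on `K` there is `a K ≥ K` with
`st (a K + j) = (K, j)` for `j < len K`. Steps: inside a block `min j (2c - j)` changes by one (or use symmetry of `Nr`), between
blocks both permutations are `γ K 0 = 1`, `γ (K+1) 0 = 1`. Result with `n = a K + l K`.
-/

set_option autoImplicit false

namespace Pool.Agent.H69.LL

open Pool.Agent.H70.LittleLip

private theorem Nr_refl (x : ℕ × ℕ) : Nr x x := Or.inl rfl

private theorem Nr_symm {x y : ℕ × ℕ} (h : Nr x y) : Nr y x := by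
  rcases h with h | h | h
  · exact Or.inl h.symm
  · exact Or.inr (Or.inr h)
  · exact Or.inr (Or.inl h)

/-- the next state of the machine, `N K` is the last time of the block `K` -/
private def nxt (N : ℕ → ℕ) (x : ℕ × ℕ) : ℕ × ℕ :=
  if x.2 + 1 ≤ N x.1 then (x.1, x.2 + 1) else (x.1 + 1, 0)

/-- the state at the time `m` -/
private def st (N : ℕ → ℕ) : ℕ → ℕ × ℕ
  | 0 => (0, 0)
  | m + 1 => nxt N (st N m)

private theorem st_succ (N : ℕ → ℕ) (m : ℕ) : st N (m + 1) = nxt N (st N m) := rfl

private theorem st_le (N : ℕ → ℕ) (m : ℕ) : (st N m).2 ≤ N (st N m).1 := by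
  induction m with
  | zero => exact Nat.zero_le _
  | succ m ih =>
    rw [st_succ]
    unfold nxt
    split
    · assumption
    · exact Nat.zero_le _

private theorem st_block {N : ℕ → ℕ} {a K : ℕ} (h : st N a = (K, 0)) (j : ℕ) (hj : j ≤ N K) :
    st N (a + j) = (K, j) := by
  induction j with
  | zero => exact h
  | succ j ih =>
    rw [← add_assoc, st_succ, ih (by omega)]
    unfold nxt
    rw [if_pos hj]

private theorem exists_start (N : ℕ → ℕ) (K : ℕ) : ∃ a, K ≤ a ∧ st N a = (K, 0) := by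
  induction K with
  | zero => exact ⟨0, le_rfl, rfl⟩
  | succ K ih =>
    obtain ⟨a, ha, hs⟩ := ih
    refine ⟨a + N K + 1, by omega, ?_⟩
    rw [st_succ, st_block hs (N K) le_rfl]
    unfold nxt
    rw [if_neg (by simp)]

theorem exists_P (R : ℕ → Equiv.Perm (ℕ × ℕ)) (hR : ∀ K, {w | R K w ≠ w}.Finite) :
    ∃ P : ℕ → Equiv.Perm (ℕ × ℕ), P 0 = 1 ∧ (∀ j w, Nr (P j w) (P (j + 1) w)) ∧
      ∀ K, ∃ n, K ≤ n ∧ ∀ j ≤ K, P (n + j) = R K := by
  choose γ l h0 hl hs using fun K => exists_path (R K) (hR K)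
  obtain ⟨N, hN⟩ : ∃ N : ℕ → ℕ, ∀ K, N K = 2 * (l K + K) := ⟨_, fun _ => rfl⟩
  obtain ⟨b, hb⟩ : ∃ b : ℕ → ℕ → Equiv.Perm (ℕ × ℕ), ∀ K j, b K j = γ K (min j (N K - j)) :=
    ⟨_, fun _ _ => rfl⟩
  have b0 : ∀ K, b K 0 = 1 := by
    intro K
    rw [hb, Nat.zero_min]
    exact h0 K
  have bN : ∀ K, b K (N K) = 1 := by
    intro K
    rw [hb, Nat.sub_self, Nat.min_zero]
    exact h0 K
  have bs : ∀ K j, j + 1 ≤ N K → ∀ w, Nr (b K j w) (b K (j + 1) w) := by
    intro K j hj w
    rw [hb, hb]
    have hNK := hN K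
    by_cases hc : j + 1 ≤ l K + K
    · rw [min_eq_left (by omega : j ≤ N K - j), min_eq_left (by omega : j + 1 ≤ N K - (j + 1))]
      exact hs K j w
    · rw [min_eq_right (by omega : N K - j ≤ j), min_eq_right (by omega : N K - (j + 1) ≤ j + 1)]
      have e : N K - j = N K - (j + 1) + 1 := by omega
      rw [e]
      exact Nr_symm (hs K _ w)
  refine ⟨fun m => b (st N m).1 (st N m).2, b0 0, ?_, ?_⟩
  · intro m w
    show Nr (b (st N m).1 (st N m).2 w) (b (st N (m + 1)).1 (st N (m + 1)).2 w)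
    rw [st_succ]
    have hle := st_le N m
    unfold nxt
    split
    · rename_i hlt
      exact bs _ _ hlt w
    · rename_i hge
      have e : (st N m).2 = N (st N m).1 := by omega
      show Nr (b (st N m).1 (st N m).2 w) (b ((st N m).1 + 1) 0 w)
      rw [e, bN, b0]
      exact Nr_refl _
  · intro K
    obtain ⟨a, ha, hsa⟩ := exists_start N K
    refine ⟨a + l K, by omega, fun j hj => ?_⟩
    have hNK := hN K
    show b (st N (a + l K + j)).1 (st N (a + l K + j)).2 = R K
    rw [add_assoc, st_block hsa (l K + j) (by omega)]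
    show b K (l K + j) = R K
    rw [hb]
    exact hl K _ (by rw [le_min_iff]; omega)

end Pool.Agent.H69.LL
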