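import Pool.Agent.H69.LL.Hyper
import Pool.Agent.H69.LL.LipM
import Pool.Agent.H69.LL.Fwd
import Pool.Agent.H69.LL.Bwd
import Pool.Agent.H69.LL.Walk

/-!
# Module Main: one bijective symbol for all `δ < |λ| ≤ 1`
-/

set_option autoImplicit false

namespace Pool.Agent.H69.LL

open Pool.Agent.H70.LittleLip Filter Topology

theorem main (δ : ℝ) (hδ : 0 < δ) : ∃ φ : V3 → V3,
    IsCompositionOperator tr.graph tr.o φ ∧ Function.Bijective φ ∧
      ∀ c : ℂ, δ < ‖c‖ → ‖c‖ ≤ 1 → IsHypercyclic tr.graph tr.o (fun f => c • (f ∘ φ)) := by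
  obtain ⟨q, hq⟩ := exists_pow_lt_of_lt_one hδ (by norm_num : (1 / 2 : ℝ) < 1)
  -- q + 1 > 0
  have hq1 : (1 / 2 : ℝ) ^ (q + 1) < δ := by
    rw [pow_succ]
    have : (0 : ℝ) < (1 / 2) ^ q := by positivity
    linarith
  choose R hRfin hR using fun K : ℕ => exists_R K (K + 1) ((q + 1) * K)
  obtain ⟨P, hP0, hPn, hPR⟩ := exists_P R hRfin
  obtain ⟨K, hlip⟩ := Phi_lip (q + 1) hPn
  choose n hn1 hn2 using hPR
  refine ⟨Phi (q + 1) P, hlip.isCompositionOperator, Phi_bij _ _, fun c hc hc1 => ?_⟩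
  have hc0 : c ≠ 0 := by
    rintro rfl
    rw [norm_zero] at hc
    linarith
  have htop : Tendsto (fun K => n K + K) atTop atTop :=
    tendsto_atTop_mono (fun K => Nat.le_add_left K (n K)) tendsto_id
  refine PTree.hyper hlip hc0 (fun K => n K + K) {v | 0 ≤ v.1} (fun v => Phi_reach _ _ v)
    (fun v hv ε hε => ?_) (fun v hv ε hε => ?_)
  · exact htop.eventually (fwd (by omega) P (hq1.trans hc) v hv hε)
  · obtain ⟨m, u₀⟩ := v
    obtain ⟨m, rfl⟩ : ∃ k : ℕ, m = k := ⟨m.toNat, (Int.toNat_of_nonneg hv).symm⟩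
    obtain ⟨w₀, hw₀⟩ := (phi_bijective.iterate ((q + 1) * m)).surjective u₀
    obtain ⟨L, hL⟩ := exists_nat_gt (1 / ε)
    filter_upwards [eventually_ge_atTop (max m (max L (max w₀.1 w₀.2)))] with K hK
    have hKm : m ≤ K := le_trans (le_max_left _ _) hK
    have hK2 := le_trans (le_max_right _ _) hK
    have hKL : L ≤ K := le_trans (le_max_left _ _) hK2
    have hK3 := le_trans (le_max_right _ _) hK2
    obtain ⟨i, hi1, hi2, hR1, hR2, hR3, hR4⟩ := hR K w₀ (le_trans (le_max_left _ _) hK3)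
      (le_trans (le_max_right _ _) hK3)
    have hj : P (n K + (K - m)) = R K := hn2 K (K - m) (Nat.sub_le _ _)
    have hputs : Puts (P (n K + (K - m))) (K + 1) i w₀ := by
      rw [hj]; exact ⟨hR1, hR2, hR3, hR4⟩
    obtain ⟨f, hf1, hf2, hf3⟩ := bwd_one (q := q + 1) hP0 hc1 (m := m) (Nat.succ_pos K) hputs
      (lt_of_le_of_lt (Nat.mul_le_mul_left _ hKm) hi1)
      (lt_of_le_of_lt (le_trans (le_max_left _ _) hK3) hi2)
    have hε' : 1 / (((K + 1 : ℕ) : ℝ)) ≤ ε := by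
      have h1 : (0 : ℝ) < ((K + 1 : ℕ) : ℝ) := by positivity
      have h2 : (L : ℝ) ≤ ((K + 1 : ℕ) : ℝ) := by exact_mod_cast (by omega : L ≤ K + 1)
      rw [div_le_iff₀ h1]
      rw [div_lt_iff₀ hε] at hL
      nlinarith
    have hjm : n K + (K - m) + m = n K + K := by omega
    rw [hjm] at hf3
    refine ⟨f, hf1, fun x => ?_, fun x => (hf3 x).trans hε'⟩
    rw [hw₀] at hf2
    exact (hf2 x).trans hε'

end Pool.Agent.H69.LL
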