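import Pool.Agent.H69.LL.ExT

/-!
# Module Map: the map on the tree of combs

`Phi_pos`: induction on `n` (`Function.iterate_succ_apply'`; `(m : ℤ) = Int.ofNat m`, `phi^[q]` iterated, `Function.iterate_mul`).
`Phi_neg`: `Phi^[j] (-(j:ℤ), u) = (0, (P j).symm u)` by induction on `j` (`-(j+1) = Int.negSucc j` goes to
`(-(j:ℤ), P j ((P (j+1)).symm u))`, `P 0 = 1`), then `Phi_pos`.
`Phi_reach`: a level `m ≥ 0` needs `j = 0`, a level `-(j)` needs `j` steps.
`Phi_bij`: level by level, `phi^[q]` is bijective (`phi_bijective.iterate`), permutations are bijective, `m ↦ m + 1` is bijective.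
-/

set_option autoImplicit false

namespace Pool.Agent.H69.LL

open Pool.Agent.H70.LittleLip

/-- the map: `phi^[q]` on the levels `m ≥ 0`, and `P j ∘ (P (j+1))⁻¹` from the level `-(j+1)` to the level `-j` -/
def Phi (q : ℕ) (P : ℕ → Equiv.Perm (ℕ × ℕ)) : V3 → V3
  | (Int.ofNat m, u) => ((m : ℤ) + 1, phi^[q] u)
  | (Int.negSucc j, u) => (-(j : ℤ), P j ((P (j + 1)).symm u))

variable {q : ℕ} {P : ℕ → Equiv.Perm (ℕ × ℕ)}

private lemma Phi_nat (m : ℕ) (u : ℕ × ℕ) : Phi q P ((m : ℤ), u) = ((m : ℤ) + 1, phi^[q] u) := rfl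

private lemma Phi_negS (j : ℕ) (u : ℕ × ℕ) :
    Phi q P (Int.negSucc j, u) = (-(j : ℤ), P j ((P (j + 1)).symm u)) := rfl

private lemma Phi_fst (v : V3) : (Phi q P v).1 = v.1 + 1 := by
  obtain ⟨a, u⟩ := v
  cases a with
  | ofNat m => rfl
  | negSucc j =>
    rw [Phi_negS]
    show -(j : ℤ) = Int.negSucc j + 1
    rw [Int.negSucc_eq]
    ring

theorem Phi_bij (q : ℕ) (P : ℕ → Equiv.Perm (ℕ × ℕ)) : Function.Bijective (Phi q P) := by
  constructor
  · rintro ⟨a, u⟩ ⟨b, w⟩ h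
    have h1 : a = b := by
      have h2 := congrArg Prod.fst h
      rw [Phi_fst, Phi_fst] at h2
      have h3 : a + 1 = b + 1 := h2
      linarith
    subst h1
    cases a with
    | ofNat m =>
      have h2 : phi^[q] u = phi^[q] w := congrArg Prod.snd h
      rw [phi_bijective.injective.iterate q h2]
    | negSucc j =>
      have h2 : P j ((P (j + 1)).symm u) = P j ((P (j + 1)).symm w) := congrArg Prod.snd h
      rw [(P (j + 1)).symm.injective ((P j).injective h2)]
  · rintro ⟨c, w⟩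
    obtain ⟨a, ha⟩ : ∃ a : ℤ, c = a + 1 := ⟨c - 1, by ring⟩
    subst ha
    cases a with
    | ofNat m =>
      obtain ⟨u, hu⟩ := phi_bijective.surjective.iterate q w
      refine ⟨(Int.ofNat m, u), ?_⟩
      show ((m : ℤ) + 1, phi^[q] u) = _
      rw [hu]
      rfl
    | negSucc j =>
      refine ⟨(Int.negSucc j, P (j + 1) ((P j).symm w)), ?_⟩
      rw [Phi_negS, Equiv.symm_apply_apply, Equiv.apply_symm_apply, Int.negSucc_eq]
      congr 1
      ring

theorem Phi_pos (n m : ℕ) (u : ℕ × ℕ) :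
    (Phi q P)^[n] ((m : ℤ), u) = (((m + n : ℕ) : ℤ), phi^[q * n] u) := by
  induction n with
  | zero => simp
  | succ n ih =>
    rw [Function.iterate_succ_apply', ih, Phi_nat, ← Function.iterate_add_apply, Nat.mul_succ,
      add_comm q (q * n)]
    congr 1

theorem Phi_neg (hP : P 0 = 1) (j m : ℕ) (u : ℕ × ℕ) :
    (Phi q P)^[j + m] (-(j : ℤ), u) = ((m : ℤ), phi^[q * m] ((P j).symm u)) := by
  induction j generalizing u with
  | zero =>
    have h := Phi_pos (q := q) (P := P) m 0 u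
    rw [zero_add] at h
    rw [zero_add, hP]
    have e : (-((0 : ℕ) : ℤ), u) = (((0 : ℕ) : ℤ), u) := by simp
    rw [e, h]
    rfl
  | succ j ih =>
    rw [show j + 1 + m = (j + m) + 1 by ring, Function.iterate_succ_apply]
    have e : (-((j + 1 : ℕ) : ℤ), u) = (Int.negSucc j, u) := by
      rw [Int.negSucc_eq]
      push_cast
      rfl
    rw [e, Phi_negS, ih, Equiv.symm_apply_apply]

theorem Phi_level (q : ℕ) (P : ℕ → Equiv.Perm (ℕ × ℕ)) (n : ℕ) (v : V3) :
    ((Phi q P)^[n] v).1 = v.1 + n := by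
  induction n with
  | zero => simp
  | succ n ih =>
    rw [Function.iterate_succ_apply', Phi_fst, ih]
    push_cast
    ring

theorem Phi_reach (q : ℕ) (P : ℕ → Equiv.Perm (ℕ × ℕ)) (v : V3) :
    ∃ j, 0 ≤ ((Phi q P)^[j] v).1 := by
  refine ⟨v.1.natAbs, ?_⟩
  rw [Phi_level]
  omega

end Pool.Agent.H69.LL
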