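import Mathlib
import Pool.Agent.H70.LittleLipDefs

/-!
# Module Tree: rooted trees given by a parent function (MP_2744a5_an)

Everything is a copy of `Pool/Agent/H70/CombDefs.lean` (helper70) with `par`, `(0,0)`, `depth` replaced by `T.par`, `T.o`, `T.dep`
and `comb` by `T.graph`:
`exists_walk`, `comb_connected`, `not_reachable`, `comb_isAcyclic`, `comb_dist`, `isParent_iff`, `comb_isRootedTree`.
Local finiteness: the neighbours of `v` are in `{par v} ∪ {w | par w = v}` (`T.fin`). Degree at least two at `v ≠ o`: `par v` and a
child `w` (`T.child v`), different because their depths are `dep v - 1` and `dep v + 1`. Infinite: `T.child` gives vertices of every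
depth (an injection `ℕ → V`, or: a finite set has a vertex of maximal depth, its child is deeper).
`finite_dep_le`: induction on `M`: `{dep ≤ 0} = {o}` and `{dep ≤ M+1} ⊆ {dep ≤ M} ∪ ⋃ v ∈ {dep ≤ M}, {w | par w = v}`.
`par_iter_eq_o`: induction on `dep v`.
-/

set_option autoImplicit false

namespace Pool.Agent.H69.LL

open Pool.Agent.H70.LittleLip

/-- A rooted tree, given by its parent function. -/
structure PTree (V : Type) where
  par : V → V
  o : V
  dep : V → ℕ
  par_o : par o = o
  dep_o : dep o = 0
  dep_par : ∀ v, v ≠ o → dep (par v) + 1 = dep v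
  fin : ∀ v, {w | par w = v}.Finite
  child : ∀ v, ∃ w, w ≠ o ∧ par w = v

namespace PTree

variable {V : Type} (T : PTree V)

/-- The graph of the tree. -/
def graph : SimpleGraph V where
  Adj v w := v ≠ w ∧ (T.par v = w ∨ T.par w = v)
  symm := ⟨fun _ _ h => ⟨h.1.symm, h.2.symm⟩⟩
  loopless := ⟨fun _ h => h.1 rfl⟩

lemma par_ne {v : V} (hv : v ≠ T.o) : T.par v ≠ v := by
  intro h
  have := T.dep_par v hv
  rw [h] at this
  omega

lemma dep_par_le (v : V) : T.dep (T.par v) ≤ T.dep v := by
  by_cases hv : v = T.o
  · subst hv; rw [T.par_o]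
  · have := T.dep_par v hv; omega

lemma par_iter_o (k : ℕ) : T.par^[k] T.o = T.o := by
  induction k with
  | zero => rfl
  | succ k ih => rw [Function.iterate_succ_apply, T.par_o, ih]

theorem par_iter_eq_o {v : V} {k : ℕ} (h : T.dep v ≤ k) : T.par^[k] v = T.o := by
  induction k generalizing v with
  | zero =>
    by_contra hv
    have h1 := T.dep_par v hv
    omega
  | succ k ih =>
    rw [Function.iterate_succ_apply]
    apply ih
    by_cases hv : v = T.o
    · rw [hv, T.par_o, T.dep_o]
      exact Nat.zero_le _
    · have := T.dep_par v hv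
      omega

private lemma adj_par {v : V} (hv : v ≠ T.o) : T.graph.Adj (T.par v) v :=
  ⟨T.par_ne hv, Or.inr rfl⟩

private lemma exists_walk (v : V) : ∃ p : T.graph.Walk T.o v, p.length = T.dep v := by
  induction' h : T.dep v using Nat.strong_induction_on with n ih generalizing v
  by_cases hv : v = T.o
  · subst hv
    exact ⟨SimpleGraph.Walk.nil, by rw [T.dep_o] at h; simpa using h⟩
  · have hd := T.dep_par v hv
    obtain ⟨p, hp⟩ := ih (T.dep (T.par v)) (by omega) (T.par v) rfl
    refine ⟨p.concat (T.adj_par hv), ?_⟩
    rw [SimpleGraph.Walk.length_concat, hp]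
    omega

private lemma connected : T.graph.Connected := by
  haveI : Nonempty V := ⟨T.o⟩
  refine ⟨fun v w => ?_⟩
  obtain ⟨p, _⟩ := T.exists_walk v
  obtain ⟨q, _⟩ := T.exists_walk w
  exact ⟨p.reverse.append q⟩

private lemma dep_iterate_par_le (k : ℕ) (v : V) : T.dep (T.par^[k] v) ≤ T.dep v := by
  induction k generalizing v with
  | zero => simp
  | succ k ih =>
    rw [Function.iterate_succ_apply]
    exact (ih (T.par v)).trans (T.dep_par_le v)

private lemma not_reachable {v w : V} (hne : v ≠ w) (hpar : T.par w = v) :
    ¬ (T.graph.deleteEdges {s(v, w)}).Reachable w v := by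
  intro hr
  have key : ∀ (a b : V), (T.graph.deleteEdges {s(v, w)}).Walk a b →
      (∃ k, T.par^[k] a = w) → (∃ k, T.par^[k] b = w) := by
    intro a b p
    induction p with
    | nil => exact id
    | @cons a c b hadj p ih =>
      intro ha
      apply ih
      obtain ⟨k, hk⟩ := ha
      rw [SimpleGraph.deleteEdges_adj] at hadj
      obtain ⟨hadj, hnot⟩ := hadj
      rcases hadj.2 with h | h
      · rcases k with _ | k
        · exfalso
          apply hnot
          simp only [Function.iterate_zero, id_eq] at hk
          subst hk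
          simp only [Set.mem_singleton_iff]
          rw [← h, hpar, Sym2.eq_swap]
        · exact ⟨k, by rw [← h]; simpa [Function.iterate_succ_apply] using hk⟩
      · exact ⟨k + 1, by rw [Function.iterate_succ_apply, h]; exact hk⟩
  obtain ⟨p⟩ := hr
  obtain ⟨k, hk⟩ := key w v p ⟨0, rfl⟩
  have h1 := T.dep_iterate_par_le k v
  rw [hk] at h1
  have hw : w ≠ T.o := by
    rintro rfl
    apply hne
    rw [← hpar, T.par_o]
  have h2 := T.dep_par w hw
  rw [hpar] at h2
  omega

private lemma isAcyclic : T.graph.IsAcyclic := by
  rw [SimpleGraph.isAcyclic_iff_forall_adj_isBridge]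
  intro v w h
  rw [SimpleGraph.isBridge_iff]
  rcases h.2 with h' | h'
  · have := T.not_reachable (v := w) (w := v) h.1.symm h'
    rw [Sym2.eq_swap]
    exact this
  · have := T.not_reachable (v := v) (w := w) h.1 h'
    exact fun hr => this hr.symm

private lemma dep_le_of_walk {a b : V} (p : T.graph.Walk a b) : T.dep b ≤ T.dep a + p.length := by
  induction p with
  | nil => simp
  | @cons a c b hadj p ih =>
    rw [SimpleGraph.Walk.length_cons]
    have : T.dep c ≤ T.dep a + 1 := by
      rcases hadj.2 with h | h
      · rw [← h]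
        exact (T.dep_par_le a).trans (Nat.le_succ _)
      · have hc : c ≠ T.o := by
          rintro rfl
          exact hadj.1 (by rw [← h, T.par_o])
        rw [← T.dep_par c hc, h]
    omega

private lemma dist_o (v : V) : T.graph.dist T.o v = T.dep v := by
  apply le_antisymm
  · obtain ⟨p, hp⟩ := T.exists_walk v
    rw [← hp]
    exact SimpleGraph.dist_le p
  · obtain ⟨p, hp⟩ := T.connected.exists_walk_length_eq_dist T.o v
    have := T.dep_le_of_walk p
    rw [← hp]
    rw [T.dep_o, zero_add] at this
    exact this

theorem isParent_iff {v w : V} : IsParent T.graph T.o w v ↔ v ≠ T.o ∧ w = T.par v := by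
  unfold IsParent
  rw [T.dist_o, T.dist_o]
  constructor
  · rintro ⟨h, hd⟩
    have hv : v ≠ T.o := by
      rintro rfl
      rw [T.dep_o] at hd
      omega
    refine ⟨hv, ?_⟩
    rcases h.2 with h' | h'
    · have := T.dep_par_le w
      rw [h'] at this
      omega
    · exact h'.symm
  · rintro ⟨hv, rfl⟩
    exact ⟨T.adj_par hv, (T.dep_par v hv).symm⟩

private lemma nbr_finite (v : V) : (T.graph.neighborSet v).Finite := by
  refine ((T.fin v).union (Set.finite_singleton (T.par v))).subset ?_
  intro w hw
  rcases hw.2 with h | h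
  · exact Or.inr h.symm
  · exact Or.inl h

theorem isRootedTree : IsRootedTree T.graph T.o := by
  refine ⟨⟨T.connected, T.isAcyclic⟩, T.nbr_finite, ?_, ?_⟩
  · intro v hv
    obtain ⟨w, hw, hwv⟩ := T.child v
    have h1 : T.par v ∈ T.graph.neighborSet v := (T.adj_par hv).symm
    have h2 : w ∈ T.graph.neighborSet v := by
      refine ⟨?_, Or.inr hwv⟩
      rintro rfl
      exact T.par_ne hw hwv
    have hne : T.par v ≠ w := by
      intro h
      have e1 := T.dep_par v hv
      have e2 := T.dep_par w hw
      rw [hwv] at e2
      rw [h] at e1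
      omega
    rw [← Set.ncard_pair hne]
    exact Set.ncard_le_ncard (by
      intro x hx
      rcases hx with rfl | rfl
      · exact h1
      · exact h2) (T.nbr_finite v)
  · have h1 : ∀ n : ℕ, ∃ v, T.dep v = n := by
      intro n
      induction n with
      | zero => exact ⟨T.o, T.dep_o⟩
      | succ n ih =>
        obtain ⟨v, hv⟩ := ih
        obtain ⟨w, hw, hwv⟩ := T.child v
        refine ⟨w, ?_⟩
        rw [← T.dep_par w hw, hwv, hv]
    exact Infinite.of_surjective T.dep h1

theorem finite_dep_le (M : ℕ) : {v : V | T.dep v ≤ M}.Finite := by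
  induction M with
  | zero =>
    refine (Set.finite_singleton T.o).subset ?_
    intro v hv
    by_contra h
    have h1 := T.dep_par v h
    have h2 : T.dep v ≤ 0 := hv
    omega
  | succ M ih =>
    refine (ih.union (ih.biUnion fun v _ => T.fin v)).subset ?_
    intro w hw
    by_cases h : w = T.o
    · left
      show T.dep w ≤ M
      rw [h, T.dep_o]
      exact Nat.zero_le _
    · right
      have h1 := T.dep_par w h
      have h2 : T.dep w ≤ M + 1 := hw
      refine Set.mem_biUnion (x := T.par w) ?_ rfl
      show T.dep (T.par w) ≤ M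
      omega

end PTree

end Pool.Agent.H69.LL
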